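import Mathlib

/-! Weights used in the disproof of Gaussian heat smoothing (problem MP_5c2e50_an). -/

set_option autoImplicit false

open MeasureTheory ProbabilityTheory Set

namespace Pool.Agent.Lib28.Heat

noncomputable section

/-- The Gaussian weight normalised to be `1` at `X`. -/
def omA (X y : ℝ) : ℝ := Real.exp (-(y ^ 2 - X ^ 2) / 2)

/-- The wider Gaussian weight normalised to be `1` at `X`. -/
def omB (X y : ℝ) : ℝ := Real.exp (-(3 * (y ^ 2 - X ^ 2)) / 8)

/-- The weight of the primal Hilbert space. -/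
def Th (X y : ℝ) : ℝ := omA X y ^ 2 / (omA X y + omB X y)

/-- The one dimensional Mehler semigroup applied to a function. -/
def Pt (t : ℝ) (h : ℝ → ℝ) (x : ℝ) : ℝ :=
  ∫ v, h (Real.exp (-t) * x + Real.sqrt (1 - Real.exp (-2 * t)) * v) ∂(gaussianReal 0 1)

lemma omA_pos (X y : ℝ) : 0 < omA X y := Real.exp_pos _
lemma omB_pos (X y : ℝ) : 0 < omB X y := Real.exp_pos _
lemma Th_pos (X y : ℝ) : 0 < Th X y := by
  have h1 := omA_pos X y
  have h2 := omB_pos X y
  unfold Th
  positivity

lemma omA_continuous (X : ℝ) : Continuous (omA X) := by unfold omA; fun_prop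
lemma omB_continuous (X : ℝ) : Continuous (omB X) := by unfold omB; fun_prop
lemma Th_continuous (X : ℝ) : Continuous (Th X) := by
  unfold Th
  refine Continuous.div ((omA_continuous X).pow 2) ((omA_continuous X).add (omB_continuous X)) ?_
  intro y
  have h1 := omA_pos X y
  have h2 := omB_pos X y
  positivity

lemma Th_le_omA (X y : ℝ) : Th X y ≤ omA X y := by
  have h1 := omA_pos X y
  have h2 := omB_pos X y
  unfold Th
  rw [div_le_iff₀ (by positivity)]
  nlinarith [mul_pos h1 h2]

end

end Pool.Agent.Lib28.Heat
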