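import Mathlib

/-! Polynomials in a Gaussian weight: Bernstein and Nikolskii inequalities and a bound at complex
points. -/

set_option autoImplicit false

open MeasureTheory Set Polynomial Filter Topology

namespace Pool.Agent.Lib28.Heat

noncomputable section

variable {a : ℝ}

/-- Polynomials are integrable against Gaussian weights. -/
lemma int_poly (ha : 0 < a) (p : ℝ[X]) : Integrable (fun y : ℝ => p.eval y * Real.exp (-a * y ^ 2)) := by
  induction p using Polynomial.induction_on' with
  | add p q hp hq =>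
    simp only [eval_add, add_mul]
    exact hp.add hq
  | monomial n c =>
    have h := (integrable_rpow_mul_exp_neg_mul_sq ha (s := n) (by
      have : (0 : ℝ) ≤ n := Nat.cast_nonneg n
      linarith)).const_mul c
    simp only [Real.rpow_natCast] at h
    refine h.congr (Eventually.of_forall fun y => ?_)
    simp [eval_monomial, mul_assoc]

lemma int_poly' (ha : 0 < a) (p : ℝ[X]) {f : ℝ → ℝ}
    (h : ∀ y, p.eval y * Real.exp (-a * y ^ 2) = f y) : Integrable f :=
  (int_poly ha p).congr (Eventually.of_forall h)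

/-- Integration by parts: the adjoint of the derivative. -/
lemma ibp (ha : 0 < a) (p q : ℝ[X]) :
    ∫ y : ℝ, p.derivative.eval y * q.eval y * Real.exp (-a * y ^ 2) =
      ∫ y : ℝ, p.eval y * (2 * a * y * q.eval y - q.derivative.eval y) * Real.exp (-a * y ^ 2) := by
  have key : ∫ y : ℝ, (p.derivative.eval y * q.eval y * Real.exp (-a * y ^ 2) -
      p.eval y * (2 * a * y * q.eval y - q.derivative.eval y) * Real.exp (-a * y ^ 2)) = 0 := by
    refine integral_eq_zero_of_hasDerivAt_of_integrable
      (f := fun y => (p * q).eval y * Real.exp (-a * y ^ 2)) ?_ ?_ (int_poly ha (p * q))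
    · intro y
      have h1 : HasDerivAt (fun y => (p * q).eval y) ((p * q).derivative.eval y) y :=
        (p * q).hasDerivAt y
      have h2 : HasDerivAt (fun y : ℝ => Real.exp (-a * y ^ 2))
          (Real.exp (-a * y ^ 2) * (-a * (2 * y))) y := by
        have h3 : HasDerivAt (fun y : ℝ => -a * y ^ 2) (-a * (2 * y)) y := by
          have := (hasDerivAt_pow 2 y).const_mul (-a)
          simpa using this
        exact h3.exp
      have h := h1.mul h2
      have e : p.derivative.eval y * q.eval y * Real.exp (-a * y ^ 2) -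
          p.eval y * (2 * a * y * q.eval y - q.derivative.eval y) * Real.exp (-a * y ^ 2) =
          (p * q).derivative.eval y * Real.exp (-a * y ^ 2) +
            (p * q).eval y * (Real.exp (-a * y ^ 2) * (-a * (2 * y))) := by
        simp only [derivative_mul, eval_add, eval_mul]
        ring
      rw [e]
      exact h
    · refine int_poly' ha (p.derivative * q - p * (C (2 * a) * X * q - q.derivative)) fun y => ?_
      simp only [eval_sub, eval_mul, eval_C, eval_X]
      ring
  have i1 : Integrable fun y : ℝ => p.derivative.eval y * q.eval y * Real.exp (-a * y ^ 2) :=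
    int_poly' ha (p.derivative * q) fun y => by simp only [eval_mul]
  have i2 : Integrable fun y : ℝ =>
      p.eval y * (2 * a * y * q.eval y - q.derivative.eval y) * Real.exp (-a * y ^ 2) :=
    int_poly' ha (p * (C (2 * a) * X * q - q.derivative)) fun y => by
      simp only [eval_sub, eval_mul, eval_C, eval_X]
  rw [integral_sub i1 i2] at key
  linarith

/-- The squared norm. -/
def N2 (a : ℝ) (p : ℝ[X]) : ℝ := ∫ y : ℝ, (p.eval y) ^ 2 * Real.exp (-a * y ^ 2)

lemma N2_int (ha : 0 < a) (p : ℝ[X]) :
    Integrable fun y : ℝ => (p.eval y) ^ 2 * Real.exp (-a * y ^ 2) :=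
  int_poly' ha (p ^ 2) fun y => by simp only [eval_pow]

lemma mul_int (ha : 0 < a) (p q : ℝ[X]) :
    Integrable fun y : ℝ => p.eval y * q.eval y * Real.exp (-a * y ^ 2) :=
  int_poly' ha (p * q) fun y => by simp only [eval_mul]

lemma N2_nonneg (a : ℝ) (p : ℝ[X]) : 0 ≤ N2 a p :=
  integral_nonneg fun y => by positivity

/-- Cauchy-Schwarz. -/
lemma cs (ha : 0 < a) (p q : ℝ[X]) :
    (∫ y : ℝ, p.eval y * q.eval y * Real.exp (-a * y ^ 2)) ^ 2 ≤ N2 a p * N2 a q := by
  have hpq := mul_int ha p q
  set B := ∫ y : ℝ, p.eval y * q.eval y * Real.exp (-a * y ^ 2) with hB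
  have quad : ∀ t : ℝ, 0 ≤ N2 a p * (t * t) + (2 * B) * t + N2 a q := by
    intro t
    have h0 : 0 ≤ N2 a (C t * p + q) := N2_nonneg a _
    have h1 : N2 a (C t * p + q) = N2 a p * (t * t) + (2 * B) * t + N2 a q := by
      unfold N2
      have e : ∀ y : ℝ, ((C t * p + q).eval y) ^ 2 * Real.exp (-a * y ^ 2) =
          (t * t) * ((p.eval y) ^ 2 * Real.exp (-a * y ^ 2)) +
          (2 * t) * (p.eval y * q.eval y * Real.exp (-a * y ^ 2)) +
          (q.eval y) ^ 2 * Real.exp (-a * y ^ 2) := by
        intro y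
        simp only [eval_add, eval_mul, eval_C]
        ring
      have i1 : Integrable fun y : ℝ => (t * t) * ((p.eval y) ^ 2 * Real.exp (-a * y ^ 2)) :=
        (N2_int ha p).const_mul _
      have i2 : Integrable fun y : ℝ =>
          (2 * t) * (p.eval y * q.eval y * Real.exp (-a * y ^ 2)) := hpq.const_mul _
      have i12 : Integrable fun y : ℝ => (t * t) * ((p.eval y) ^ 2 * Real.exp (-a * y ^ 2)) +
          (2 * t) * (p.eval y * q.eval y * Real.exp (-a * y ^ 2)) := i1.add i2
      simp_rw [e]
      rw [integral_add i12 (N2_int ha q), integral_add i1 i2, integral_const_mul,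
        integral_const_mul, ← hB]
      ring
    linarith
  have := discrim_le_zero quad
  unfold discrim at this
  nlinarith

/-- The adjoint of the derivative. -/
def Ad (a : ℝ) (p : ℝ[X]) : ℝ[X] := C (2 * a) * X * p - p.derivative

lemma Ad_eval (a : ℝ) (p : ℝ[X]) (y : ℝ) :
    (Ad a p).eval y = 2 * a * y * p.eval y - p.derivative.eval y := by
  simp [Ad]

lemma ibp' (ha : 0 < a) (p q : ℝ[X]) :
    ∫ y : ℝ, p.derivative.eval y * q.eval y * Real.exp (-a * y ^ 2) =
      ∫ y : ℝ, p.eval y * (Ad a q).eval y * Real.exp (-a * y ^ 2) := by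
  simp_rw [Ad_eval]
  exact ibp ha p q

/-- Commutation relation in norm form. -/
lemma N2_Ad (ha : 0 < a) (p : ℝ[X]) : N2 a (Ad a p) = N2 a p.derivative + 2 * a * N2 a p := by
  have h1 : N2 a (Ad a p) =
      ∫ y : ℝ, (Ad a p).derivative.eval y * p.eval y * Real.exp (-a * y ^ 2) := by
    rw [ibp' ha (Ad a p) p]
    unfold N2
    congr 1
    ext y
    ring
  have h2 : N2 a p.derivative =
      ∫ y : ℝ, p.eval y * (Ad a p.derivative).eval y * Real.exp (-a * y ^ 2) := by
    rw [← ibp' ha p p.derivative]
    unfold N2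
    congr 1
    ext y
    ring
  have e : ∀ y : ℝ, (Ad a p).derivative.eval y * p.eval y * Real.exp (-a * y ^ 2) =
      p.eval y * (Ad a p.derivative).eval y * Real.exp (-a * y ^ 2) +
        2 * a * ((p.eval y) ^ 2 * Real.exp (-a * y ^ 2)) := by
    intro y
    have : (Ad a p).derivative.eval y =
        2 * a * p.eval y + 2 * a * y * p.derivative.eval y - p.derivative.derivative.eval y := by
      simp only [Ad, derivative_sub, derivative_mul, derivative_C, derivative_X, eval_sub, eval_add,
        eval_mul, eval_C, eval_X, zero_mul, zero_add, mul_one]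
    rw [this, Ad_eval]
    ring
  rw [h1, h2]
  simp_rw [e]
  have i1 : Integrable fun y : ℝ =>
      p.eval y * (Ad a p.derivative).eval y * Real.exp (-a * y ^ 2) := mul_int ha _ _
  rw [integral_add i1 ((N2_int ha p).const_mul _), integral_const_mul]
  rfl

/-- Bernstein's inequality. -/
lemma bernstein (ha : 0 < a) (D : ℕ) : ∀ p : ℝ[X], p.natDegree ≤ D →
    N2 a p.derivative ≤ 2 * a * D * N2 a p := by
  induction D with
  | zero =>
    intro p hp
    have : p.derivative = 0 := by
      rw [Polynomial.natDegree_eq_zero.mp (Nat.le_zero.mp hp) |>.choose_spec.symm]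
      simp
    rw [this]
    simp [N2]
  | succ D ih =>
    intro p hp
    have hd : p.derivative.natDegree ≤ D := by
      have := natDegree_derivative_le p
      omega
    have h1 := ih p.derivative hd
    have h2 : N2 a (Ad a p.derivative) ≤ 2 * a * (D + 1) * N2 a p.derivative := by
      rw [N2_Ad ha]
      nlinarith
    have h3 : (N2 a p.derivative) ^ 2 ≤ N2 a p * N2 a (Ad a p.derivative) := by
      have := cs ha p (Ad a p.derivative)
      rw [← ibp' ha] at this
      calc (N2 a p.derivative) ^ 2
          = (∫ y : ℝ, p.derivative.eval y * p.derivative.eval y * Real.exp (-a * y ^ 2)) ^ 2 := by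
            unfold N2
            congr 2
            ext y
            ring
        _ ≤ _ := this
    have h4 := N2_nonneg a p
    have h5 := N2_nonneg a p.derivative
    push_cast
    by_cases h6 : N2 a p.derivative = 0
    · rw [h6]
      positivity
    · have h7 : 0 < N2 a p.derivative := lt_of_le_of_ne h5 (Ne.symm h6)
      have h8 : N2 a p.derivative * N2 a p.derivative ≤
          (2 * a * (D + 1) * N2 a p) * N2 a p.derivative := by
        nlinarith
      exact le_of_mul_le_mul_right h8 h7

/-- Nikolskii's inequality. -/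
lemma nikolskii (ha : 0 < a) (ha2 : a ≤ 1 / 2) (D : ℕ) (p : ℝ[X]) (hp : p.natDegree ≤ D) (x : ℝ) :
    (p.eval x) ^ 2 * Real.exp (-a * x ^ 2) ≤ 2 * Real.sqrt (D + 1) * N2 a p := by
  set q : ℝ[X] := Ad a p - p.derivative with hq
  have hderiv : ∀ y ∈ Ici x, HasDerivAt (fun y => (p ^ 2).eval y * Real.exp (-a * y ^ 2))
      (-(p.eval y * q.eval y * Real.exp (-a * y ^ 2))) y := by
    intro y _
    have h1 : HasDerivAt (fun y => (p ^ 2).eval y) ((p ^ 2).derivative.eval y) y :=
      (p ^ 2).hasDerivAt y
    have h2 : HasDerivAt (fun y : ℝ => Real.exp (-a * y ^ 2))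
        (Real.exp (-a * y ^ 2) * (-a * (2 * y))) y := by
      have h3 : HasDerivAt (fun y : ℝ => -a * y ^ 2) (-a * (2 * y)) y := by
        have := (hasDerivAt_pow 2 y).const_mul (-a)
        simpa using this
      exact h3.exp
    have h := h1.mul h2
    have e : -(p.eval y * q.eval y * Real.exp (-a * y ^ 2)) =
        (p ^ 2).derivative.eval y * Real.exp (-a * y ^ 2) +
          (p ^ 2).eval y * (Real.exp (-a * y ^ 2) * (-a * (2 * y))) := by
      rw [hq, eval_sub, Ad_eval, derivative_pow]
      simp only [eval_mul, eval_pow, Nat.cast_ofNat, eval_C, Nat.add_one_sub_one, pow_one]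
      ring
    rw [e]
    exact h
  have i1 : Integrable fun y : ℝ => p.eval y * q.eval y * Real.exp (-a * y ^ 2) := mul_int ha _ _
  have htend : Tendsto (fun y => (p ^ 2).eval y * Real.exp (-a * y ^ 2)) atTop (𝓝 0) :=
    tendsto_zero_of_hasDerivAt_of_integrableOn_Ioi (a := x)
      (fun y hy => hderiv y (Ioi_subset_Ici_self hy)) i1.neg.integrableOn
      (int_poly ha (p ^ 2)).integrableOn
  have h1 := integral_Ioi_of_hasDerivAt_of_tendsto' hderiv i1.neg.integrableOn htend
  have h2 : (p.eval x) ^ 2 * Real.exp (-a * x ^ 2) =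
      ∫ y in Ioi x, p.eval y * q.eval y * Real.exp (-a * y ^ 2) := by
    rw [integral_neg] at h1
    have : (p ^ 2).eval x = (p.eval x) ^ 2 := by simp
    rw [this] at h1
    linarith
  -- bound by the full integral of absolute values
  have h3 : (p.eval x) ^ 2 * Real.exp (-a * x ^ 2) ≤
      ∫ y : ℝ, |p.eval y * q.eval y * Real.exp (-a * y ^ 2)| := by
    rw [h2]
    calc ∫ y in Ioi x, p.eval y * q.eval y * Real.exp (-a * y ^ 2)
        ≤ ∫ y in Ioi x, |p.eval y * q.eval y * Real.exp (-a * y ^ 2)| :=
          integral_mono i1.integrableOn i1.abs.integrableOn fun y => le_abs_self _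
      _ ≤ _ := setIntegral_le_integral i1.abs (Eventually.of_forall fun y => abs_nonneg _)
  -- AM-GM with parameter
  have hN1 : N2 a q ≤ 4 * (D + 1) * N2 a p := by
    have e1 := N2_Ad ha p
    have e2 := bernstein ha D p hp
    have e3 : N2 a q ≤ 2 * N2 a (Ad a p) + 2 * N2 a p.derivative := by
      unfold N2
      rw [← integral_const_mul, ← integral_const_mul,
        ← integral_add ((N2_int ha _).const_mul _) ((N2_int ha _).const_mul _)]
      refine integral_mono (N2_int ha _) (((N2_int ha _).const_mul _).add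
        ((N2_int ha _).const_mul _)) fun y => ?_
      have he : 0 < Real.exp (-a * y ^ 2) := Real.exp_pos _
      simp only [hq, eval_sub]
      nlinarith [mul_nonneg (sq_nonneg ((Ad a p).eval y + p.derivative.eval y)) he.le]
    have e4 := N2_nonneg a p
    have e5 : (0 : ℝ) ≤ D := Nat.cast_nonneg D
    have e6 : a * D * N2 a p ≤ (1 / 2) * D * N2 a p := by gcongr
    have e7 : a * N2 a p ≤ (1 / 2) * N2 a p := by gcongr
    nlinarith
  set s : ℝ := Real.sqrt (D + 1) with hs
  have hs0 : 0 < s := Real.sqrt_pos.mpr (by positivity)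
  have hss : s * s = D + 1 := Real.mul_self_sqrt (by positivity)
  have h4 : ∫ y : ℝ, |p.eval y * q.eval y * Real.exp (-a * y ^ 2)| ≤
      s * N2 a p + (1 / (4 * s)) * N2 a q := by
    unfold N2
    rw [← integral_const_mul, ← integral_const_mul,
      ← integral_add ((N2_int ha _).const_mul _) ((N2_int ha _).const_mul _)]
    refine integral_mono i1.abs (((N2_int ha _).const_mul _).add
        ((N2_int ha _).const_mul _)) fun y => ?_
    have he : 0 < Real.exp (-a * y ^ 2) := Real.exp_pos _
    simp only
    rw [abs_mul, abs_of_pos he]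
    have h5 : |p.eval y * q.eval y| ≤ s * (p.eval y) ^ 2 + 1 / (4 * s) * (q.eval y) ^ 2 := by
      rw [abs_mul]
      have h6 : 0 ≤ s * (|p.eval y| - |q.eval y| / (2 * s)) ^ 2 := by positivity
      have h7 : s * (|p.eval y| - |q.eval y| / (2 * s)) ^ 2 =
          s * (p.eval y) ^ 2 + 1 / (4 * s) * (q.eval y) ^ 2 - |p.eval y| * |q.eval y| := by
        rw [← sq_abs (p.eval y), ← sq_abs (q.eval y)]
        field_simp
        ring
      linarith
    nlinarith
  have h8 : (1 / (4 * s)) * N2 a q ≤ s * N2 a p := by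
    have : (1 / (4 * s)) * N2 a q ≤ (1 / (4 * s)) * (4 * (D + 1) * N2 a p) := by gcongr
    have e : (1 / (4 * s)) * (4 * (D + 1) * N2 a p) = s * N2 a p := by
      rw [← hss]
      field_simp
    linarith
  calc _ ≤ _ := h3
    _ ≤ _ := h4
    _ ≤ 2 * s * N2 a p := by linarith

/-- Iterated derivatives. -/
lemma bernstein_iter (ha : 0 < a) (ha2 : a ≤ 1 / 2) (D : ℕ) (p : ℝ[X]) (hp : p.natDegree ≤ D)
    (j : ℕ) : N2 a (derivative^[j] p) ≤ (D : ℝ) ^ j * N2 a p := by
  induction j with
  | zero => simp
  | succ j ih =>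
    rw [Function.iterate_succ_apply']
    have hd : (derivative^[j] p).natDegree ≤ D :=
      (natDegree_iterate_derivative p j).trans (by omega)
    have h1 := bernstein ha D _ hd
    have h2 := N2_nonneg a (derivative^[j] p)
    have h3 : 2 * a * D * N2 a (derivative^[j] p) ≤ 1 * D * N2 a (derivative^[j] p) := by
      gcongr
      linarith
    calc N2 a (derivative (derivative^[j] p)) ≤ 2 * a * D * N2 a (derivative^[j] p) := h1
      _ ≤ 1 * D * N2 a (derivative^[j] p) := h3
      _ ≤ 1 * D * ((D : ℝ) ^ j * N2 a p) := by gcongr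
      _ = _ := by ring

/-- Pointwise bound at complex points. -/
theorem poly_point_bound (ha : 0 < a) (ha2 : a ≤ 1 / 2) (D : ℕ) (β : ℝ[X])
    (hβ : β.natDegree ≤ D) (x h : ℝ) :
    ‖Polynomial.aeval ((x : ℂ) + (h : ℂ) * Complex.I) β‖ ^ 2 ≤
      2 * Real.sqrt (D + 1) * N2 a β * Real.exp (a * x ^ 2) *
        Real.exp (2 * (|h| * Real.sqrt D)) := by
  set K : ℝ := 2 * Real.sqrt (D + 1) * N2 a β * Real.exp (a * x ^ 2) with hK
  have hN := N2_nonneg a β
  have hK0 : 0 ≤ K := by positivity
  -- bound on derivatives at real points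
  have hder : ∀ j : ℕ, |(derivative^[j] β).eval x| ≤ Real.sqrt K * Real.sqrt D ^ j := by
    intro j
    have hd : (derivative^[j] β).natDegree ≤ D :=
      (natDegree_iterate_derivative β j).trans (by omega)
    have h1 := nikolskii ha ha2 D _ hd x
    have h2 := bernstein_iter ha ha2 D β hβ j
    have h3 : ((derivative^[j] β).eval x) ^ 2 ≤ K * (D : ℝ) ^ j := by
      have h4 : ((derivative^[j] β).eval x) ^ 2 =
          ((derivative^[j] β).eval x) ^ 2 * Real.exp (-a * x ^ 2) * Real.exp (a * x ^ 2) := by
        rw [mul_assoc, ← Real.exp_add]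
        simp
      rw [h4]
      calc _ ≤ 2 * Real.sqrt (D + 1) * N2 a (derivative^[j] β) * Real.exp (a * x ^ 2) := by gcongr
        _ ≤ 2 * Real.sqrt (D + 1) * ((D : ℝ) ^ j * N2 a β) * Real.exp (a * x ^ 2) := by gcongr
        _ = K * (D : ℝ) ^ j := by rw [hK]; ring
    calc |(derivative^[j] β).eval x| = Real.sqrt (((derivative^[j] β).eval x) ^ 2) :=
          (Real.sqrt_sq_eq_abs _).symm
      _ ≤ Real.sqrt (K * (D : ℝ) ^ j) := Real.sqrt_le_sqrt h3
      _ = Real.sqrt K * Real.sqrt ((D : ℝ) ^ j) := Real.sqrt_mul hK0 _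
      _ = Real.sqrt K * Real.sqrt D ^ j := by
        congr 1
        rw [Real.sqrt_eq_iff_mul_self_eq (by positivity) (by positivity), ← mul_pow,
          Real.mul_self_sqrt (by positivity)]
  -- Taylor expansion
  set βc : ℂ[X] := β.map (algebraMap ℝ ℂ) with hβc
  have e1 : Polynomial.aeval ((x : ℂ) + (h : ℂ) * Complex.I) β =
      (taylor (x : ℂ) βc).eval ((h : ℂ) * Complex.I) := by
    rw [taylor_eval, hβc, eval_map_algebraMap]
    ring_nf
  have e2 : (taylor (x : ℂ) βc).eval ((h : ℂ) * Complex.I) =
      ∑ j ∈ Finset.range (D + 1), (taylor (x : ℂ) βc).coeff j * ((h : ℂ) * Complex.I) ^ j := by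
    apply eval_eq_sum_range'
    rw [natDegree_taylor, hβc]
    exact lt_of_le_of_lt natDegree_map_le (by omega)
  have e3 : ∀ j : ℕ, (taylor (x : ℂ) βc).coeff j =
      (((derivative^[j] β).eval x / (j.factorial : ℝ) : ℝ) : ℂ) := by
    intro j
    rw [taylor_coeff]
    have h1 : (j.factorial : ℂ) * (hasseDeriv j βc).eval (x : ℂ) =
        (derivative^[j] βc).eval (x : ℂ) := by
      have := factorial_smul_hasseDeriv (R := ℂ) j
      have h2 := congrFun this βc
      rw [← h2]
      simp
    have h3 : (derivative^[j] βc).eval (x : ℂ) = (((derivative^[j] β).eval x : ℝ) : ℂ) := by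
      rw [hβc, iterate_derivative_map, eval_map]
      exact eval₂_at_apply (algebraMap ℝ ℂ) x
    have hf : (j.factorial : ℂ) ≠ 0 := by exact_mod_cast j.factorial_ne_zero
    rw [h3] at h1
    push_cast
    rw [← h1]
    field_simp
  have e4 : ‖Polynomial.aeval ((x : ℂ) + (h : ℂ) * Complex.I) β‖ ≤
      Real.sqrt K * Real.exp (|h| * Real.sqrt D) := by
    rw [e1, e2]
    calc ‖∑ j ∈ Finset.range (D + 1), (taylor (x : ℂ) βc).coeff j * ((h : ℂ) * Complex.I) ^ j‖
        ≤ ∑ j ∈ Finset.range (D + 1), ‖(taylor (x : ℂ) βc).coeff j * ((h : ℂ) * Complex.I) ^ j‖ :=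
          norm_sum_le _ _
      _ ≤ ∑ j ∈ Finset.range (D + 1), Real.sqrt K * ((|h| * Real.sqrt D) ^ j / j.factorial) := by
          refine Finset.sum_le_sum fun j _ => ?_
          rw [norm_mul, norm_pow, norm_mul, Complex.norm_I, mul_one, e3, Complex.norm_real,
            Complex.norm_real, Real.norm_eq_abs, Real.norm_eq_abs, abs_div, Nat.abs_cast]
          calc |(derivative^[j] β).eval x| / (j.factorial : ℝ) * |h| ^ j
              ≤ (Real.sqrt K * Real.sqrt D ^ j) / (j.factorial : ℝ) * |h| ^ j := by
                gcongr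
                exact hder j
            _ = _ := by rw [mul_pow]; ring
      _ = Real.sqrt K * ∑ j ∈ Finset.range (D + 1), (|h| * Real.sqrt D) ^ j / j.factorial := by
          rw [Finset.mul_sum]
      _ ≤ Real.sqrt K * Real.exp (|h| * Real.sqrt D) := by
          gcongr
          exact Real.sum_le_exp_of_nonneg (by positivity) _
  calc ‖Polynomial.aeval ((x : ℂ) + (h : ℂ) * Complex.I) β‖ ^ 2
      ≤ (Real.sqrt K * Real.exp (|h| * Real.sqrt D)) ^ 2 := by gcongr
    _ = K * Real.exp (2 * (|h| * Real.sqrt D)) := by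
        rw [mul_pow, Real.sq_sqrt hK0, ← Real.exp_nat_mul]
        norm_num

end

end Pool.Agent.Lib28.Heat
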