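import Mathlib
import Pool.Agent.Lib_helper28.Heat.Gauss

/-! The barrier function and the invisibility lemma. -/

set_option autoImplicit false

open MeasureTheory Set Polynomial Filter Topology

namespace Pool.Agent.Lib28.Heat

noncomputable section

/-- The exponent of the barrier function. -/
def Phi (X a : ℝ) (z : ℂ) : ℂ :=
  ((-(7 / 32) : ℝ) : ℂ) * (z ^ 2 - (X : ℂ) ^ 2) + Complex.I * ((a : ℂ) * (z - X)) +
    ((X / 32 : ℝ) : ℂ) * (z - X) +
    ((X / (16 * Real.pi) : ℝ) : ℂ) *
      (Complex.I * ((z - X) * Complex.log ((z - X) / ((2 * X : ℝ) : ℂ))))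

lemma Phi_re (X a : ℝ) (z : ℂ) :
    (Phi X a z).re = -(7 / 32) * (z.re ^ 2 - z.im ^ 2 - X ^ 2) - a * z.im +
      X / 32 * (z.re - X) - X / (16 * Real.pi) *
        ((z.re - X) * (Complex.log ((z - X) / ((2 * X : ℝ) : ℂ))).im +
          z.im * (Complex.log ((z - X) / ((2 * X : ℝ) : ℂ))).re) := by
  unfold Phi
  set L := Complex.log ((z - X) / ((2 * X : ℝ) : ℂ))
  have h1 : (z ^ 2 - (X : ℂ) ^ 2).re = z.re ^ 2 - z.im ^ 2 - X ^ 2 := by
    simp [pow_two]
  simp only [Complex.add_re, Complex.mul_re, Complex.ofReal_re, Complex.ofReal_im, Complex.I_re,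
    Complex.I_im, h1, Complex.sub_re, Complex.sub_im, Complex.mul_im]
  ring

/-- The basic upper and lower estimates for the real part. -/
lemma Phi_re_bounds {X a : ℝ} (hX : 0 < X) {z : ℂ} (hz : 0 < z.im) :
    (Phi X a z).re ≤ -(7 / 32) * (z.re ^ 2 - X ^ 2) + 7 / 32 * z.im ^ 2 - a * z.im +
        X / 32 * |z.re - X| - X / (16 * Real.pi) * (z.im * Real.log (‖z - X‖ / (2 * X))) ∧
    -(Phi X a z).re ≤ 7 / 32 * (z.re ^ 2 - X ^ 2) + a * z.im +
        X / (16 * Real.pi) * (z.im * Real.log (‖z - X‖ / (2 * X))) := by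
  have hpi := Real.pi_pos
  set L := Complex.log ((z - X) / ((2 * X : ℝ) : ℂ)) with hL
  have hLre : L.re = Real.log (‖z - X‖ / (2 * X)) := by
    rw [hL, Complex.log_re, norm_div, Complex.norm_real, Real.norm_of_nonneg (by positivity)]
  have hw : (z - X) / ((2 * X : ℝ) : ℂ) = (((2 * X)⁻¹ : ℝ) : ℂ) * (z - X) := by
    push_cast
    field_simp
  have him : ((z - X) / ((2 * X : ℝ) : ℂ)).im = (2 * X)⁻¹ * z.im := by
    rw [hw]
    simp
  have hre : ((z - X) / ((2 * X : ℝ) : ℂ)).re = (2 * X)⁻¹ * (z.re - X) := by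
    rw [hw]
    simp
  have hLim : L.im = Complex.arg ((z - X) / ((2 * X : ℝ) : ℂ)) := by rw [hL, Complex.log_im]
  have hinv : 0 < (2 * X)⁻¹ := by positivity
  have h0 : 0 ≤ L.im := by
    rw [hLim, Complex.arg_nonneg_iff, him]
    positivity
  have h1 : L.im ≤ Real.pi := by rw [hLim]; exact Complex.arg_le_pi _
  -- the sign of (z.re - X)(1 - 2 θ / π)
  have h2 : 0 ≤ (z.re - X) * (Real.pi - 2 * L.im) := by
    rcases le_or_gt 0 (z.re - X) with h | h
    · have h3 : |Complex.arg ((z - X) / ((2 * X : ℝ) : ℂ))| ≤ Real.pi / 2 := by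
        rw [Complex.abs_arg_le_pi_div_two_iff, hre]
        positivity
      rw [← hLim, abs_of_nonneg h0] at h3
      exact mul_nonneg h (by linarith)
    · have h3 : Real.pi / 2 < L.im := by
        by_contra hcon
        push Not at hcon
        have h4 : |Complex.arg ((z - X) / ((2 * X : ℝ) : ℂ))| ≤ Real.pi / 2 := by
          rw [← hLim, abs_of_nonneg h0]
          exact hcon
        rw [Complex.abs_arg_le_pi_div_two_iff, hre] at h4
        have : (2 * X)⁻¹ * (z.re - X) < 0 := mul_neg_of_pos_of_neg hinv h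
        linarith
      nlinarith
  have h3 : (z.re - X) * (Real.pi - 2 * L.im) ≤ Real.pi * |z.re - X| := by
    have h4 : |Real.pi - 2 * L.im| ≤ Real.pi := by
      rw [abs_le]
      constructor <;> linarith
    calc (z.re - X) * (Real.pi - 2 * L.im) ≤ |(z.re - X) * (Real.pi - 2 * L.im)| := le_abs_self _
      _ = |z.re - X| * |Real.pi - 2 * L.im| := abs_mul _ _
      _ ≤ |z.re - X| * Real.pi := by gcongr
      _ = _ := by ring
  have key : X / 32 * (z.re - X) - X / (16 * Real.pi) * ((z.re - X) * L.im) =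
      X / (32 * Real.pi) * ((z.re - X) * (Real.pi - 2 * L.im)) := by
    field_simp
    ring
  have hc : 0 < X / (32 * Real.pi) := by positivity
  have h5 : X / (32 * Real.pi) * ((z.re - X) * (Real.pi - 2 * L.im)) ≤ X / 32 * |z.re - X| := by
    calc _ ≤ X / (32 * Real.pi) * (Real.pi * |z.re - X|) := by gcongr
      _ = _ := by field_simp
  have h6 : 0 ≤ X / (32 * Real.pi) * ((z.re - X) * (Real.pi - 2 * L.im)) := by positivity
  have hPhi := Phi_re X a z
  rw [← hL, hLre] at hPhi
  constructor
  · rw [hPhi]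
    nlinarith
  · rw [hPhi]
    nlinarith [sq_nonneg z.im]

lemma Phi_diff {X a : ℝ} (hX : 0 < X) {z : ℂ} (hz : 0 < z.im) : DifferentiableAt ℂ (Phi X a) z := by
  have hmem : (z - X) / ((2 * X : ℝ) : ℂ) ∈ Complex.slitPlane := by
    have hw : (z - X) / ((2 * X : ℝ) : ℂ) = (((2 * X)⁻¹ : ℝ) : ℂ) * (z - X) := by
      push_cast
      field_simp
    right
    rw [hw]
    simp only [Complex.mul_im, Complex.ofReal_re, Complex.ofReal_im, Complex.sub_im, sub_zero,
      zero_mul, add_zero]
    positivity
  unfold Phi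
  fun_prop (disch := assumption)

/-- The two real exponents. -/
def Qe (X x : ℝ) : ℝ := min ((x ^ 2 - X ^ 2) / 4) (3 * (x ^ 2 - X ^ 2) / 16)

lemma Qe_le {X x : ℝ} (hx : 0 ≤ x) :
    Qe X x - 7 / 32 * (x ^ 2 - X ^ 2) + X / 32 * |x - X| ≤ 0 := by
  unfold Qe
  rcases le_total x X with h | h
  · have h1 : |x - X| = X - x := by rw [abs_of_nonpos (by linarith)]; ring
    have h2 : min ((x ^ 2 - X ^ 2) / 4) (3 * (x ^ 2 - X ^ 2) / 16) ≤ (x ^ 2 - X ^ 2) / 4 :=
      min_le_left _ _
    rw [h1]
    nlinarith [mul_nonneg hx (sub_nonneg.mpr h)]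
  · have h1 : |x - X| = x - X := abs_of_nonneg (by linarith)
    have h2 : min ((x ^ 2 - X ^ 2) / 4) (3 * (x ^ 2 - X ^ 2) / 16) ≤ 3 * (x ^ 2 - X ^ 2) / 16 :=
      min_le_right _ _
    rw [h1]
    nlinarith [mul_nonneg hx (sub_nonneg.mpr h)]

/-- Abstract barrier estimate on the rectangle. -/
lemma barrier {X s ε B : ℝ} (hX : 2 ≤ X) (hε : 0 < ε) (hεX : ε ≤ 1 / X ^ 3)
    (hB : 0 ≤ B) (F : ℂ → ℂ) (hF : Differentiable ℂ F)
    (hFb : ∀ z : ℂ, ‖F z‖ ≤ B * Real.exp (Qe X z.re + |z.im| * s)) {z : ℂ}
    (h0 : 0 ≤ z.re) (h1 : z.re ≤ 2 * X) (h2 : ε ≤ z.im) (h3 : z.im ≤ X) :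
    ‖F z‖ ≤ B * Real.exp 1 * Real.exp (-(Phi X (s + X) z).re) := by
  have hX0 : 0 < X := by linarith
  have hpi := Real.pi_pos
  have hpi3 := Real.pi_gt_three
  have hεX' : ε < X := by
    calc ε ≤ 1 / X ^ 3 := hεX
      _ ≤ 1 := by
        rw [div_le_one (by positivity)]
        exact one_le_pow₀ (by linarith)
      _ < X := by linarith
  set U : Set ℂ := Ioo 0 (2 * X) ×ℂ Ioo ε X with hU
  have hUo : IsOpen U := isOpen_Ioo.reProdIm isOpen_Ioo
  have hcl : closure U = Icc 0 (2 * X) ×ℂ Icc ε X := by
    rw [hU, Complex.closure_reProdIm, closure_Ioo (by positivity : (0 : ℝ) < 2 * X).ne,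
      closure_Ioo hεX'.ne]
  have hd : DiffContOnCl ℂ (fun z => F z * Complex.exp (Phi X (s + X) z)) U := by
    refine DifferentiableOn.diffContOnCl fun w hw => ?_
    rw [hcl, Complex.mem_reProdIm] at hw
    have hw0 : 0 < w.im := lt_of_lt_of_le hε hw.2.1
    exact ((hF w).mul (Phi_diff hX0 hw0).cexp).differentiableWithinAt
  have hfr : ∀ w ∈ frontier U, ‖F w * Complex.exp (Phi X (s + X) w)‖ ≤ B * Real.exp 1 := by
    intro w hw
    rw [hUo.frontier_eq, Set.mem_sdiff, hcl, hU, Complex.mem_reProdIm, Complex.mem_reProdIm] at hw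
    obtain ⟨⟨⟨hx0, hx1⟩, hy0, hy1⟩, hn⟩ := hw
    have hy : 0 < w.im := lt_of_lt_of_le hε hy0
    have hb := (Phi_re_bounds (a := s + X) hX0 hy).1
    have hq := Qe_le (X := X) hx0
    have hwpos : 0 < ‖w - X‖ := by
      rw [norm_pos_iff]
      intro h
      have : (w - X).im = 0 := by rw [h]; simp
      simp at this
      linarith
    -- the logarithmic term
    have hlog : -(X / (16 * Real.pi) * (w.im * Real.log (‖w - X‖ / (2 * X)))) +
        w.im * (7 / 32 * w.im - X) ≤ 1 := by
      by_cases hbot : w.im = ε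
      · have h4 : ε ≤ ‖w - X‖ := by
          have := Complex.abs_im_le_norm (w - X)
          simp only [Complex.sub_im, Complex.ofReal_im, sub_zero] at this
          rw [abs_of_pos hy, hbot] at this
          exact this
        have h5 : -Real.log (‖w - X‖ / (2 * X)) ≤ 2 * Real.sqrt (2 * X / ε) := by
          rw [← Real.log_inv, inv_div]
          have h6 : Real.log (2 * X / ‖w - X‖) ≤ Real.log (2 * X / ε) := by
            apply Real.log_le_log (by positivity)
            gcongr
          have h7 : Real.log (2 * X / ε) = 2 * Real.log (Real.sqrt (2 * X / ε)) := by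
            rw [Real.log_sqrt (by positivity)]
            ring
          have h8 := Real.log_le_sub_one_of_pos (Real.sqrt_pos.mpr (by positivity : 0 < 2 * X / ε))
          linarith
        have h9 : ε * Real.sqrt (2 * X / ε) ≤ 2 / X := by
          have e1 : (ε * Real.sqrt (2 * X / ε)) ^ 2 = 2 * X * ε := by
            rw [mul_pow, Real.sq_sqrt (by positivity)]
            field_simp
          have e2 : 2 * X * ε ≤ (2 / X) ^ 2 := by
            calc 2 * X * ε ≤ 2 * X * (1 / X ^ 3) := by gcongr
              _ = 2 / X ^ 2 := by field_simp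
              _ ≤ 4 / X ^ 2 := by gcongr; norm_num
              _ = (2 / X) ^ 2 := by ring
          by_contra hcon
          push Not at hcon
          have := mul_self_lt_mul_self (by positivity) hcon
          nlinarith
        have h10 : -(X / (16 * Real.pi) * (w.im * Real.log (‖w - X‖ / (2 * X)))) ≤ 1 := by
          rw [hbot]
          calc -(X / (16 * Real.pi) * (ε * Real.log (‖w - X‖ / (2 * X))))
              = X / (16 * Real.pi) * (ε * (-Real.log (‖w - X‖ / (2 * X)))) := by ring
            _ ≤ X / (16 * Real.pi) * (ε * (2 * Real.sqrt (2 * X / ε))) := by gcongr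
            _ = X / (16 * Real.pi) * 2 * (ε * Real.sqrt (2 * X / ε)) := by ring
            _ ≤ X / (16 * Real.pi) * 2 * (2 / X) := by gcongr
            _ = 1 / (4 * Real.pi) := by field_simp; norm_num
            _ ≤ 1 := by
              rw [div_le_one (by positivity)]
              linarith
        have h11 : w.im * (7 / 32 * w.im - X) ≤ 0 := by
          apply mul_nonpos_of_nonneg_of_nonpos hy.le
          linarith
        linarith
      · have h4 : X ≤ ‖w - X‖ := by
          by_cases hr : w.re = 0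
          · have := Complex.abs_re_le_norm (w - X)
            simp only [Complex.sub_re, Complex.ofReal_re, hr, zero_sub, abs_neg] at this
            rwa [abs_of_pos hX0] at this
          by_cases hr2 : w.re = 2 * X
          · have := Complex.abs_re_le_norm (w - X)
            simp only [Complex.sub_re, Complex.ofReal_re, hr2] at this
            rw [show 2 * X - X = X by ring, abs_of_pos hX0] at this
            exact this
          have htop : w.im = X := by
            by_contra htop
            apply hn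
            exact ⟨⟨lt_of_le_of_ne hx0 (Ne.symm hr), lt_of_le_of_ne hx1 hr2⟩,
              lt_of_le_of_ne hy0 (Ne.symm hbot), lt_of_le_of_ne hy1 htop⟩
          have := Complex.abs_im_le_norm (w - X)
          simp only [Complex.sub_im, Complex.ofReal_im, sub_zero] at this
          rwa [abs_of_pos hy, htop] at this
        have h5 : -Real.log (‖w - X‖ / (2 * X)) ≤ 1 := by
          rw [← Real.log_inv, inv_div]
          have h6 : Real.log (2 * X / ‖w - X‖) ≤ Real.log 2 := by
            apply Real.log_le_log (by positivity)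
            rw [div_le_iff₀ hwpos]
            linarith
          have h7 := Real.log_two_lt_d9
          linarith
        have h10 : -(X / (16 * Real.pi) * (w.im * Real.log (‖w - X‖ / (2 * X)))) ≤
            X / 48 * w.im := by
          calc -(X / (16 * Real.pi) * (w.im * Real.log (‖w - X‖ / (2 * X))))
              = X / (16 * Real.pi) * (w.im * (-Real.log (‖w - X‖ / (2 * X)))) := by ring
            _ ≤ X / (16 * Real.pi) * (w.im * 1) := by gcongr
            _ = X / (16 * Real.pi) * w.im := by ring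
            _ ≤ X / 48 * w.im := by
              gcongr
              linarith
        have h11 : w.im * (7 / 32 * w.im - X) ≤ w.im * (7 / 32 * X - X) := by gcongr
        nlinarith
    rw [norm_mul, Complex.norm_exp]
    calc ‖F w‖ * Real.exp (Phi X (s + X) w).re
        ≤ (B * Real.exp (Qe X w.re + |w.im| * s)) * Real.exp (Phi X (s + X) w).re := by
          gcongr
          exact hFb w
      _ = B * Real.exp (Qe X w.re + |w.im| * s + (Phi X (s + X) w).re) := by
          rw [mul_assoc, ← Real.exp_add]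
      _ ≤ B * Real.exp 1 := by
          gcongr
          rw [abs_of_pos hy]
          nlinarith
  have hzcl : z ∈ closure U := by
    rw [hcl, Complex.mem_reProdIm]
    exact ⟨⟨h0, h1⟩, h2, h3⟩
  have hbd : Bornology.IsBounded U := (Metric.isBounded_Ioo _ _).reProdIm (Metric.isBounded_Ioo _ _)
  have hmain := Complex.norm_le_of_forall_mem_frontier_norm_le hbd hd hfr hzcl
  rw [norm_mul, Complex.norm_exp] at hmain
  calc ‖F z‖ = ‖F z‖ * Real.exp (Phi X (s + X) z).re * Real.exp (-(Phi X (s + X) z).re) := by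
        rw [mul_assoc, ← Real.exp_add]
        simp
    _ ≤ _ := by gcongr

/-- Entire functions with the two growth bounds are tiny near `X`. -/
lemma invisible {X s B L0 : ℝ} (hX : 2 ≤ X) (hs : 0 ≤ s) (hL : 32 * Real.pi * (s / X + 1) ≤ L0)
    (hL2 : 111 ≤ L0) (hB : 0 ≤ B) (F : ℂ → ℂ) (hF : Differentiable ℂ F)
    (hFc : ∀ z : ℂ, ‖F ((starRingEnd ℂ) z)‖ = ‖F z‖)
    (hFb : ∀ z : ℂ, ‖F z‖ ≤ B * Real.exp (Qe X z.re + |z.im| * s)) (x : ℝ)
    (hx : |x - X| ≤ 2 * X * Real.exp (-L0)) :
    ‖F x‖ ≤ B * Real.exp 1 * Real.exp (7 / 16 * X * |x - X|) *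
      Real.exp (-(X ^ 2 * Real.exp (-L0) / 128)) := by
  have hX0 : 0 < X := by linarith
  have hpi := Real.pi_pos
  set ρ : ℝ := 2 * X * Real.exp (-L0) with hρ
  have hρ0 : 0 < ρ := by positivity
  have hexp : Real.exp (-L0) ≤ 1 / 112 := by
    rw [Real.exp_neg, ← one_div]
    apply one_div_le_one_div_of_le (by norm_num)
    linarith [Real.add_one_le_exp L0]
  have hρX : ρ ≤ X / 56 := by
    rw [hρ]
    nlinarith
  set a : ℝ := s + X with ha
  have ha0 : 0 < a := by positivity
  set δ : ℝ := X / (64 * a) with hδ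
  have hδ0 : 0 < δ := by positivity
  have hδ1 : δ ≤ 1 := by
    rw [hδ, div_le_one (by positivity)]
    linarith
  have hδa : δ * a = X / 64 := by
    rw [hδ]
    field_simp
  -- bound on the circle
  have hcircle : ∀ z : ℂ, ‖z - X‖ = ρ →
      ‖F z‖ ≤ B * Real.exp 1 * Real.exp (7 / 32 * (z.re ^ 2 - X ^ 2) - X * ρ / 128) := by
    -- first for nonnegative imaginary part
    have hpos : ∀ z : ℂ, ‖z - X‖ = ρ → 0 ≤ z.im →
        ‖F z‖ ≤ B * Real.exp 1 * Real.exp (7 / 32 * (z.re ^ 2 - X ^ 2) - X * ρ / 128) := by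
      intro z hz him
      have hsq : (z.re - X) ^ 2 + z.im ^ 2 = ρ ^ 2 := by
        rw [← hz, ← Complex.normSq_eq_norm_sq, Complex.normSq_apply]
        simp
        ring
      have hξ : |z.re - X| ≤ ρ := by
        rw [← hz]
        have := Complex.abs_re_le_norm (z - X)
        simpa using this
      have hh : z.im ≤ ρ := by
        rw [← hz]
        have := Complex.abs_im_le_norm (z - X)
        simp only [Complex.sub_im, Complex.ofReal_im, sub_zero] at this
        rwa [abs_of_nonneg him] at this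
      rw [abs_le] at hξ
      have hre0 : 0 ≤ z.re := by linarith
      have hre1 : z.re ≤ 2 * X := by linarith
      by_cases hc : z.im ≤ δ * |z.re - X|
      · -- near the real axis
        have h1 : z.im ≤ |z.re - X| := by
          calc z.im ≤ δ * |z.re - X| := hc
            _ ≤ 1 * |z.re - X| := by gcongr
            _ = _ := one_mul _
        have h2 : ρ / 2 ≤ |z.re - X| := by
          by_contra hcon
          push Not at hcon
          have h3 : (z.re - X) ^ 2 = |z.re - X| ^ 2 := (sq_abs _).symm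
          nlinarith [abs_nonneg (z.re - X)]
        have hq := Qe_le (X := X) hre0
        have h4 : |z.im| * s ≤ X / 64 * |z.re - X| := by
          rw [abs_of_nonneg him]
          calc z.im * s ≤ (δ * |z.re - X|) * a := by
                gcongr
                linarith
            _ = X / 64 * |z.re - X| := by rw [← hδa]; ring
        calc ‖F z‖ ≤ B * Real.exp (Qe X z.re + |z.im| * s) := hFb z
          _ ≤ B * Real.exp (1 + (7 / 32 * (z.re ^ 2 - X ^ 2) - X * ρ / 128)) := by
              refine mul_le_mul_of_nonneg_left (Real.exp_le_exp.mpr ?_) hB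
              nlinarith
          _ = _ := by rw [Real.exp_add]; ring
      · push Not at hc
        have h1 : δ * ρ / 2 ≤ z.im := by
          by_cases h2 : |z.re - X| ≤ z.im
          · have h3 : ρ / 2 ≤ z.im := by
              by_contra hcon
              push Not at hcon
              have h3 : (z.re - X) ^ 2 = |z.re - X| ^ 2 := (sq_abs _).symm
              nlinarith [abs_nonneg (z.re - X)]
            nlinarith
          · push Not at h2
            have h3 : ρ / 2 ≤ |z.re - X| := by
              by_contra hcon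
              push Not at hcon
              have h3 : (z.re - X) ^ 2 = |z.re - X| ^ 2 := (sq_abs _).symm
              nlinarith [abs_nonneg (z.re - X)]
            nlinarith
        set ε : ℝ := min (1 / X ^ 3) (δ * ρ / 2) with hε
        have hε0 : 0 < ε := lt_min (by positivity) (by positivity)
        have hb := barrier (s := s) hX hε0 (min_le_left _ _) hB F hF hFb hre0 hre1
          ((min_le_right _ _).trans h1) (by linarith)
        have hy0 : 0 < z.im := lt_of_lt_of_le (by positivity) h1
        have hre := (Phi_re_bounds (a := s + X) hX0 hy0).2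
        have hlog : Real.log (‖z - X‖ / (2 * X)) = -L0 := by
          rw [hz, hρ]
          rw [show 2 * X * Real.exp (-L0) / (2 * X) = Real.exp (-L0) by field_simp]
          exact Real.log_exp _
        rw [hlog] at hre
        have h5 : X / (16 * Real.pi) * (z.im * -L0) ≤ -2 * a * z.im := by
          have h6 : X / (16 * Real.pi) * (z.im * L0) ≥
              X / (16 * Real.pi) * (z.im * (32 * Real.pi * (s / X + 1))) := by gcongr
          have h7 : X / (16 * Real.pi) * (z.im * (32 * Real.pi * (s / X + 1))) = 2 * a * z.im := by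
            rw [ha]
            field_simp
            ring
          linarith
        have h8 : X * ρ / 128 ≤ a * z.im := by
          calc X * ρ / 128 = a * (δ * ρ / 2) := by
                have : a * (δ * ρ / 2) = (δ * a) * ρ / 2 := by ring
                rw [this, hδa]
                ring
            _ ≤ a * z.im := by gcongr
        calc ‖F z‖ ≤ B * Real.exp 1 * Real.exp (-(Phi X (s + X) z).re) := hb
          _ ≤ _ := by
            gcongr
            linarith
    intro z hz
    rcases le_total 0 z.im with h | h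
    · exact hpos z hz h
    · have h1 := hpos ((starRingEnd ℂ) z) (by
        rw [← hz]
        have : (starRingEnd ℂ) z - (X : ℂ) = (starRingEnd ℂ) (z - X) := by simp
        rw [this, RCLike.norm_conj]) (by simpa using h)
      rw [hFc] at h1
      simpa using h1
  -- the tilted function
  set Ψ : ℂ → ℂ := fun z => F z * Complex.exp (((-(7 / 16) * X : ℝ) : ℂ) * (z - X)) with hΨ
  have hΨd : DiffContOnCl ℂ Ψ (Metric.ball (X : ℂ) ρ) := by
    apply Differentiable.diffContOnCl
    rw [hΨ]
    fun_prop
  have hnorm : ∀ z : ℂ, ‖Ψ z‖ = ‖F z‖ * Real.exp (-(7 / 16) * X * (z.re - X)) := by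
    intro z
    rw [hΨ]
    simp only
    rw [norm_mul, Complex.norm_exp]
    congr 2
    rw [Complex.re_ofReal_mul]
    simp
  have hfr : ∀ z ∈ frontier (Metric.ball (X : ℂ) ρ), ‖Ψ z‖ ≤
      B * Real.exp 1 * Real.exp (-(X ^ 2 * Real.exp (-L0) / 128)) := by
    intro z hz
    rw [frontier_ball _ hρ0.ne', mem_sphere_iff_norm] at hz
    rw [hnorm]
    have hξ : |z.re - X| ≤ ρ := by
      rw [← hz]
      have := Complex.abs_re_le_norm (z - X)
      simpa using this
    have hξ2 : (z.re - X) ^ 2 ≤ ρ ^ 2 := by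
      rw [← sq_abs (z.re - X)]
      gcongr
    calc ‖F z‖ * Real.exp (-(7 / 16) * X * (z.re - X))
        ≤ (B * Real.exp 1 * Real.exp (7 / 32 * (z.re ^ 2 - X ^ 2) - X * ρ / 128)) *
          Real.exp (-(7 / 16) * X * (z.re - X)) := by
          gcongr
          exact hcircle z hz
      _ = B * Real.exp 1 * Real.exp (7 / 32 * (z.re - X) ^ 2 - X * ρ / 128) := by
          rw [mul_assoc, ← Real.exp_add]
          congr 2
          ring
      _ ≤ _ := by
          gcongr
          have h1 : 7 / 32 * ρ ^ 2 ≤ X * ρ / 256 := by nlinarith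
          have h2 : X * ρ / 256 = X ^ 2 * Real.exp (-L0) / 128 := by rw [hρ]; ring
          nlinarith
  have hxcl : (x : ℂ) ∈ closure (Metric.ball (X : ℂ) ρ) := by
    rw [closure_ball _ hρ0.ne', mem_closedBall_iff_norm, ← Complex.ofReal_sub, Complex.norm_real]
    exact hx
  have hmain := Complex.norm_le_of_forall_mem_frontier_norm_le Metric.isBounded_ball hΨd hfr hxcl
  rw [hnorm] at hmain
  simp only [Complex.ofReal_re] at hmain
  calc ‖F x‖ = (‖F x‖ * Real.exp (-(7 / 16) * X * (x - X))) * Real.exp (7 / 16 * X * (x - X)) := by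
        rw [mul_assoc, ← Real.exp_add]
        ring_nf
        simp
    _ ≤ (B * Real.exp 1 * Real.exp (-(X ^ 2 * Real.exp (-L0) / 128))) *
        Real.exp (7 / 16 * X * |x - X|) := by
        gcongr
        exact le_abs_self _
    _ = _ := by ring

/-- Polynomials of degree `≤ D` bounded in both weights are tiny near `X`. -/
theorem lemmaL {X L0 M : ℝ} (D : ℕ) (hX : 2 ≤ X)
    (hL : 32 * Real.pi * (Real.sqrt D / X + 1) ≤ L0) (hL2 : 111 ≤ L0)
    (β : ℝ[X]) (hβ : β.natDegree ≤ D)
    (hA : N2 (1 / 2) β ≤ M * Real.exp (-(X ^ 2) / 2))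
    (hBd : N2 (3 / 8) β ≤ M * Real.exp (-(3 * X ^ 2) / 8)) (x : ℝ)
    (hx : |x - X| ≤ 2 * X * Real.exp (-L0)) :
    (β.eval x) ^ 2 ≤ 2 * Real.sqrt (D + 1) * M * Real.exp 2 * Real.exp (7 / 8 * X * |x - X|) *
      Real.exp (-(X ^ 2 * Real.exp (-L0) / 64)) := by
  have hM : 0 ≤ M := by
    have h1 := (N2_nonneg (1 / 2) β).trans hA
    exact nonneg_of_mul_nonneg_left h1 (Real.exp_pos _)
  set B : ℝ := Real.sqrt (2 * Real.sqrt (D + 1) * M) with hB
  have hB0 : 0 ≤ B := Real.sqrt_nonneg _
  have hB2 : B ^ 2 = 2 * Real.sqrt (D + 1) * M := Real.sq_sqrt (by positivity)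
  set F : ℂ → ℂ := fun z => Polynomial.aeval z β with hF
  have hFd : Differentiable ℂ F := by
    rw [hF]
    exact Polynomial.differentiable_aeval β
  have hFc : ∀ z : ℂ, ‖F ((starRingEnd ℂ) z)‖ = ‖F z‖ := by
    intro z
    rw [hF]
    simp only
    rw [Polynomial.aeval_conj, RCLike.norm_conj]
  have hFb : ∀ z : ℂ, ‖F z‖ ≤ B * Real.exp (Qe X z.re + |z.im| * Real.sqrt D) := by
    intro z
    have hz : F z = Polynomial.aeval ((z.re : ℂ) + (z.im : ℂ) * Complex.I) β := by
      rw [hF]
      simp [Complex.re_add_im]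
    have h1 : ‖F z‖ ^ 2 ≤ B ^ 2 * Real.exp (2 * ((z.re ^ 2 - X ^ 2) / 4 +
        |z.im| * Real.sqrt D)) := by
      rw [hz]
      calc _ ≤ 2 * Real.sqrt (D + 1) * N2 (1 / 2) β * Real.exp (1 / 2 * z.re ^ 2) *
            Real.exp (2 * (|z.im| * Real.sqrt D)) :=
            poly_point_bound (by norm_num) le_rfl D β hβ z.re z.im
        _ ≤ 2 * Real.sqrt (D + 1) * (M * Real.exp (-(X ^ 2) / 2)) * Real.exp (1 / 2 * z.re ^ 2) *
            Real.exp (2 * (|z.im| * Real.sqrt D)) := by gcongr
        _ = 2 * Real.sqrt (D + 1) * M * (Real.exp (-(X ^ 2) / 2) * Real.exp (1 / 2 * z.re ^ 2) *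
            Real.exp (2 * (|z.im| * Real.sqrt D))) := by ring
        _ = _ := by
            rw [← Real.exp_add, ← Real.exp_add, hB2]
            congr 2
            ring
    have h2 : ‖F z‖ ^ 2 ≤ B ^ 2 * Real.exp (2 * (3 * (z.re ^ 2 - X ^ 2) / 16 +
        |z.im| * Real.sqrt D)) := by
      rw [hz]
      calc _ ≤ 2 * Real.sqrt (D + 1) * N2 (3 / 8) β * Real.exp (3 / 8 * z.re ^ 2) *
            Real.exp (2 * (|z.im| * Real.sqrt D)) :=
            poly_point_bound (by norm_num) (by norm_num) D β hβ z.re z.im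
        _ ≤ 2 * Real.sqrt (D + 1) * (M * Real.exp (-(3 * X ^ 2) / 8)) *
            Real.exp (3 / 8 * z.re ^ 2) * Real.exp (2 * (|z.im| * Real.sqrt D)) := by gcongr
        _ = 2 * Real.sqrt (D + 1) * M * (Real.exp (-(3 * X ^ 2) / 8) *
            Real.exp (3 / 8 * z.re ^ 2) * Real.exp (2 * (|z.im| * Real.sqrt D))) := by ring
        _ = _ := by
            rw [← Real.exp_add, ← Real.exp_add, hB2]
            congr 2
            ring
    have h3 : ‖F z‖ ^ 2 ≤ (B * Real.exp (Qe X z.re + |z.im| * Real.sqrt D)) ^ 2 := by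
      rw [mul_pow, ← Real.exp_nat_mul]
      unfold Qe
      rcases min_choice ((z.re ^ 2 - X ^ 2) / 4) (3 * (z.re ^ 2 - X ^ 2) / 16) with h | h
      · rw [h]
        exact_mod_cast h1
      · rw [h]
        exact_mod_cast h2
    exact (pow_le_pow_iff_left₀ (norm_nonneg _) (by positivity) two_ne_zero).mp h3
  have hmain := invisible hX (Real.sqrt_nonneg D) hL hL2 hB0 F hFd hFc hFb x hx
  have hFx : ‖F x‖ = |β.eval x| := by
    rw [hF]
    simp only
    rw [← Complex.coe_algebraMap, Polynomial.aeval_algebraMap_apply]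
    simp
  rw [hFx] at hmain
  calc (β.eval x) ^ 2 = |β.eval x| ^ 2 := (sq_abs _).symm
    _ ≤ (B * Real.exp 1 * Real.exp (7 / 16 * X * |x - X|) *
      Real.exp (-(X ^ 2 * Real.exp (-L0) / 128))) ^ 2 := by gcongr
    _ = _ := by
      rw [mul_pow, mul_pow, mul_pow, hB2, ← Real.exp_nat_mul, ← Real.exp_nat_mul,
        ← Real.exp_nat_mul]
      congr 3
      · norm_num
      · push_cast; ring
      · push_cast; ring

end

end Pool.Agent.Lib28.Heat
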