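import Mathlib
import Pool.Agent.Lib_helper28.Heat.Defs
import Pool.Agent.Lib_helper28.Heat.Gauss
import Pool.Agent.Lib_helper69.Heat.Prod

/-! One dimensional estimates for the final assembly. -/

set_option autoImplicit false

open MeasureTheory ProbabilityTheory Set Polynomial Filter Topology

namespace Pool.Agent.Lib28.Heat

noncomputable section

/-- The outer region. -/
def Rr (X : ℝ) : Set ℝ := (Icc (-X) X)ᶜ

lemma Rr_meas (X : ℝ) : MeasurableSet (Rr X) := measurableSet_Icc.compl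

lemma mem_Rr_sq {X y : ℝ} (hX : 0 ≤ X) (hy : y ∈ Rr X) : X ^ 2 ≤ y ^ 2 := by
  unfold Rr at hy
  simp only [mem_compl_iff, mem_Icc, not_and_or, not_le] at hy
  rcases hy with h | h <;> nlinarith

lemma notMem_Rr_sq {X y : ℝ} (hy : y ∉ Rr X) : y ^ 2 ≤ X ^ 2 := by
  unfold Rr at hy
  simp only [mem_compl_iff, not_not, mem_Icc] at hy
  nlinarith

/-- tail integral on the right. -/
lemma tail_Ioi {c X : ℝ} (hc : 0 < c) (hX : 0 < X) :
    IntegrableOn (fun y : ℝ => Real.exp (-c * (y ^ 2 - X ^ 2))) (Ioi X) ∧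
    ∫ y in Ioi X, Real.exp (-c * (y ^ 2 - X ^ 2)) ≤ 1 / (2 * c * X) := by
  have hexp : ∀ y : ℝ, Real.exp (-c * (y ^ 2 - X ^ 2)) =
      Real.exp (c * X ^ 2) * Real.exp (-c * y ^ 2) := by
    intro y
    rw [← Real.exp_add]
    congr 1
    ring
  have i1 : Integrable (fun y : ℝ => Real.exp (-c * (y ^ 2 - X ^ 2))) := by
    simp_rw [hexp]
    exact (integrable_exp_neg_mul_sq hc).const_mul _
  have i2 : Integrable (fun y : ℝ => y * Real.exp (-c * (y ^ 2 - X ^ 2))) := by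
    have h : ∀ y : ℝ, y * Real.exp (-c * (y ^ 2 - X ^ 2)) =
        Real.exp (c * X ^ 2) * (y * Real.exp (-c * y ^ 2)) := by
      intro y
      rw [hexp]
      ring
    simp_rw [h]
    exact (integrable_mul_exp_neg_mul_sq hc).const_mul _
  refine ⟨i1.integrableOn, ?_⟩
  have hd : ∀ y ∈ Ici X, HasDerivAt (fun y : ℝ => -(1 / (2 * c)) * Real.exp (-c * (y ^ 2 - X ^ 2)))
      (y * Real.exp (-c * (y ^ 2 - X ^ 2))) y := by
    intro y _
    have h1 : HasDerivAt (fun y : ℝ => -c * (y ^ 2 - X ^ 2)) (-c * (2 * y)) y := by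
      have := ((hasDerivAt_pow 2 y).sub_const (X ^ 2)).const_mul (-c)
      simpa using this
    have h2 := (h1.exp).const_mul (-(1 / (2 * c)))
    have e : y * Real.exp (-c * (y ^ 2 - X ^ 2)) =
        -(1 / (2 * c)) * (Real.exp (-c * (y ^ 2 - X ^ 2)) * (-c * (2 * y))) := by
      field_simp
    rw [e]
    exact h2
  have ht : Tendsto (fun y : ℝ => -(1 / (2 * c)) * Real.exp (-c * (y ^ 2 - X ^ 2))) atTop (𝓝 0) :=
    tendsto_zero_of_hasDerivAt_of_integrableOn_Ioi (a := X)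
      (fun y hy => hd y (Ioi_subset_Ici_self hy)) i2.integrableOn (i1.const_mul _).integrableOn
  have h1 := integral_Ioi_of_hasDerivAt_of_tendsto' hd i2.integrableOn ht
  have h2 : ∫ y in Ioi X, y * Real.exp (-c * (y ^ 2 - X ^ 2)) = 1 / (2 * c) := by
    rw [h1]
    simp
  have h3 : ∫ y in Ioi X, Real.exp (-c * (y ^ 2 - X ^ 2)) ≤
      ∫ y in Ioi X, (1 / X) * (y * Real.exp (-c * (y ^ 2 - X ^ 2))) := by
    refine setIntegral_mono_on i1.integrableOn (i2.const_mul _).integrableOn measurableSet_Ioi ?_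
    intro y hy
    have hy' : X < y := hy
    have he := Real.exp_pos (-c * (y ^ 2 - X ^ 2))
    have : 1 ≤ 1 / X * y := by
      rw [one_div, inv_mul_eq_div, le_div_iff₀ hX]
      linarith
    nlinarith
  rw [integral_const_mul, h2] at h3
  calc _ ≤ _ := h3
    _ = _ := by field_simp

/-- tail integral on both sides. -/
lemma tail_R {c X : ℝ} (hc : 0 < c) (hX : 0 < X) :
    ∫ y in Rr X, Real.exp (-c * (y ^ 2 - X ^ 2)) ≤ 1 / (c * X) := by
  have hR : Rr X = Iio (-X) ∪ Ioi X := by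
    ext y
    simp only [Rr, mem_compl_iff, mem_Icc, not_and_or, not_le, mem_union, mem_Iio, mem_Ioi]
  have hexp : ∀ y : ℝ, Real.exp (-c * (y ^ 2 - X ^ 2)) =
      Real.exp (c * X ^ 2) * Real.exp (-c * y ^ 2) := by
    intro y
    rw [← Real.exp_add]
    congr 1
    ring
  have i1 : Integrable (fun y : ℝ => Real.exp (-c * (y ^ 2 - X ^ 2))) := by
    simp_rw [hexp]
    exact (integrable_exp_neg_mul_sq hc).const_mul _
  have hdis : Disjoint (Iio (-X)) (Ioi X) := by
    rw [Set.disjoint_left]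
    intro y h1 h2
    simp only [mem_Iio, mem_Ioi] at h1 h2
    linarith
  rw [hR, setIntegral_union hdis measurableSet_Ioi i1.integrableOn i1.integrableOn]
  have h1 := (tail_Ioi hc hX).2
  have h2 : ∫ y in Iio (-X), Real.exp (-c * (y ^ 2 - X ^ 2)) =
      ∫ y in Ioi X, Real.exp (-c * (y ^ 2 - X ^ 2)) := by
    rw [← integral_Iic_eq_integral_Iio]
    have := integral_comp_neg_Ioi X (fun y : ℝ => Real.exp (-c * (y ^ 2 - X ^ 2)))
    rw [← this]
    simp
  rw [h2]
  have h3 : 1 / (c * X) = 1 / (2 * c * X) + 1 / (2 * c * X) := by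
    field_simp
    ring
  linarith

lemma omA_eq' (X y : ℝ) : omA X y = Real.exp (X ^ 2 / 2) * Real.exp (-(y ^ 2) / 2) := by
  unfold omA
  rw [← Real.exp_add]
  congr 1
  ring

lemma omB_le_omA {X y : ℝ} (h : y ^ 2 ≤ X ^ 2) : omB X y ≤ omA X y := by
  unfold omA omB
  apply Real.exp_le_exp.mpr
  linarith

lemma omA_le_omB {X y : ℝ} (h : X ^ 2 ≤ y ^ 2) : omA X y ≤ omB X y := by
  unfold omA omB
  apply Real.exp_le_exp.mpr
  linarith

lemma omA_le_two_Th {X y : ℝ} (h : y ^ 2 ≤ X ^ 2) : omA X y ≤ 2 * Th X y := by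
  have h1 := omA_pos X y
  have h2 := omB_pos X y
  have h3 := omB_le_omA h
  unfold Th
  rw [← mul_div_assoc, le_div_iff₀ (by positivity)]
  nlinarith

lemma omA_sq_div_Th (X y : ℝ) : omA X y ^ 2 / Th X y = omA X y + omB X y := by
  have h1 := omA_pos X y
  have h2 := omB_pos X y
  unfold Th
  field_simp

/-- AM-GM estimate. -/
lemma amgm {X y u v lam : ℝ} (hl : 0 < lam) :
    |u| * |v| * omA X y ≤ lam * (u ^ 2 * Th X y) + lam⁻¹ * (v ^ 2 * (omA X y + omB X y)) := by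
  have h1 := omA_pos X y
  have h2 := omB_pos X y
  have h3 := Th_pos X y
  have h4 := omA_sq_div_Th X y
  rw [← h4]
  have h5 : 0 ≤ lam * Th X y * (|u| - |v| * omA X y / (lam * Th X y)) ^ 2 := by positivity
  have h6 : lam * Th X y * (|u| - |v| * omA X y / (lam * Th X y)) ^ 2 =
      lam * (u ^ 2 * Th X y) + lam⁻¹ * (v ^ 2 * (omA X y ^ 2 / Th X y)) -
        2 * (|u| * |v| * omA X y) := by
    rw [← sq_abs u, ← sq_abs v]
    field_simp
    ring
  have h7 : 0 ≤ |u| * |v| * omA X y := by positivity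
  linarith

/-- The `4/3` estimate in the outer region. -/
lemma four_thirds {X y u lam : ℝ} (hl : 0 < lam) (hy : X ^ 2 ≤ y ^ 2) :
    |u| ^ (4 / 3 : ℝ) * omA X y ≤ lam * (u ^ 2 * Th X y) +
      4 * (lam ^ 2)⁻¹ * Real.exp (-(1 / 4) * (y ^ 2 - X ^ 2)) := by
  have h1 := omA_pos X y
  have h2 := omB_pos X y
  have h3 := Th_pos X y
  set s : ℝ := |u| ^ (2 / 3 : ℝ) with hs
  have hs0 : 0 ≤ s := by positivity
  have e1 : |u| ^ (4 / 3 : ℝ) = s ^ 2 := by
    rw [hs, ← Real.rpow_natCast, ← Real.rpow_mul (abs_nonneg u)]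
    norm_num
  have e2 : u ^ 2 = s ^ 3 := by
    rw [hs, ← Real.rpow_natCast (|u| ^ (2 / 3 : ℝ)), ← Real.rpow_mul (abs_nonneg u), ← sq_abs]
    norm_num
  have e3 : omA X y ^ 3 / Th X y ^ 2 ≤ 4 * Real.exp (-(1 / 4) * (y ^ 2 - X ^ 2)) := by
    have h4 : omA X y ^ 3 / Th X y ^ 2 = (omA X y ^ 2 / Th X y) ^ 2 / omA X y := by
      field_simp
    rw [h4, omA_sq_div_Th]
    have h5 := omA_le_omB hy
    have h6 : (omA X y + omB X y) ^ 2 ≤ (2 * omB X y) ^ 2 := by gcongr; linarith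
    calc (omA X y + omB X y) ^ 2 / omA X y ≤ (2 * omB X y) ^ 2 / omA X y := by gcongr
      _ = 4 * (omB X y ^ 2 / omA X y) := by ring
      _ = 4 * Real.exp (-(1 / 4) * (y ^ 2 - X ^ 2)) := by
        congr 1
        unfold omA omB
        rw [← Real.exp_nat_mul, ← Real.exp_sub]
        congr 1
        push_cast
        ring
  rw [e1, e2]
  rcases le_or_gt (omA X y) (lam * Th X y * s) with h | h
  · have : s ^ 2 * omA X y ≤ lam * (s ^ 3 * Th X y) := by
      calc s ^ 2 * omA X y ≤ s ^ 2 * (lam * Th X y * s) := by gcongr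
        _ = _ := by ring
    have h5 : 0 ≤ 4 * (lam ^ 2)⁻¹ * Real.exp (-(1 / 4) * (y ^ 2 - X ^ 2)) := by positivity
    linarith
  · have h5 : s ≤ omA X y / (lam * Th X y) := by
      rw [le_div_iff₀ (by positivity)]
      linarith
    have h6 : s ^ 2 * omA X y ≤ (omA X y / (lam * Th X y)) ^ 2 * omA X y := by gcongr
    have h7 : (omA X y / (lam * Th X y)) ^ 2 * omA X y =
        (lam ^ 2)⁻¹ * (omA X y ^ 3 / Th X y ^ 2) := by
      field_simp
    have h8 : (lam ^ 2)⁻¹ * (omA X y ^ 3 / Th X y ^ 2) ≤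
        (lam ^ 2)⁻¹ * (4 * Real.exp (-(1 / 4) * (y ^ 2 - X ^ 2))) := by gcongr
    have h9 : 0 ≤ lam * (s ^ 3 * Th X y) := by positivity
    linarith

end

end Pool.Agent.Lib28.Heat
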