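import Mathlib
import Pool.Agent.Lib_helper28.Heat.One

/-! Upper bound of the `L_{4/3}` norm. -/

set_option autoImplicit false

open MeasureTheory ProbabilityTheory Set Polynomial Filter Topology

namespace Pool.Agent.Lib28.Heat

open PM

noncomputable section

/-- The normalising factor. -/
def theta (n : ℕ) (X : ℝ) : ℝ := n * ((Real.sqrt (2 * Real.pi))⁻¹ * Real.exp (-(X ^ 2) / 2))

lemma theta_nonneg (n : ℕ) (X : ℝ) : 0 ≤ theta n X := by
  unfold theta
  positivity

lemma conv (n : ℕ) (X : ℝ) (φ : ℝ → ℝ) :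
    n * ∫ y, φ y ∂ga = theta n X * ∫ y, φ y * omA X y := by
  have h1 : ∫ y, φ y * omA X y = Real.exp (X ^ 2 / 2) * ∫ y, φ y * Real.exp (-(y ^ 2) / 2) := by
    rw [← integral_const_mul]
    congr 1
    ext y
    rw [omA_eq']
    ring
  rw [gaussian_integral, h1]
  unfold theta
  have h2 : Real.exp (-(X ^ 2) / 2) * Real.exp (X ^ 2 / 2) = 1 := by
    rw [← Real.exp_add]
    ring_nf
    simp
  calc _ = n * ((Real.sqrt (2 * Real.pi))⁻¹ * (∫ y, φ y * Real.exp (-(y ^ 2) / 2))) *
        (Real.exp (-(X ^ 2) / 2) * Real.exp (X ^ 2 / 2)) := by rw [h2, mul_one]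
    _ = _ := by ring

lemma conv_set (n : ℕ) (X : ℝ) (φ : ℝ → ℝ) {s : Set ℝ} (hs : MeasurableSet s) :
    n * ∫ y in s, φ y ∂ga = theta n X * ∫ y in s, φ y * omA X y := by
  rw [← integral_indicator hs, ← integral_indicator hs, conv]
  congr 2
  ext y
  by_cases h : y ∈ s <;> simp [h]

/-- polynomials times `omA` are integrable -/
lemma int_omA (X : ℝ) (p : ℝ[X]) : Integrable (fun y => p.eval y * omA X y) := by
  have h := (int_poly (a := 1 / 2) (by norm_num) p).const_mul (Real.exp (X ^ 2 / 2))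
  refine h.congr (Eventually.of_forall fun y => ?_)
  simp only
  rw [omA_eq']
  have : Real.exp (-(1 / 2) * y ^ 2) = Real.exp (-(y ^ 2) / 2) := by
    congr 1
    ring
  rw [this]
  ring

lemma int_omA_one (X : ℝ) : Integrable (omA X) := by
  have := int_omA X 1
  simpa using this

lemma int_omB_one (X : ℝ) : Integrable (omB X) := by
  have h := (int_poly (a := 3 / 8) (by norm_num) 1).const_mul (Real.exp (3 * X ^ 2 / 8))
  refine h.congr (Eventually.of_forall fun y => ?_)
  simp only [eval_one, one_mul]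
  unfold omB
  rw [← Real.exp_add]
  congr 1
  ring

lemma memLp_poly2 (p : ℝ[X]) : MemLp (fun y => p.eval y) 2 ga := by
  rw [memLp_two_iff_integrable_sq p.continuous.aestronglyMeasurable]
  have := PM.integrable_poly (p ^ 2)
  simpa using this

lemma memLp_sum {n : ℕ} {h : ℝ → ℝ} (hh : MemLp h 2 ga) :
    MemLp (fun x : Fin n → ℝ => ∑ i, h (x i)) 2 (gn n) := by
  apply memLp_finsetSum
  intro i _
  exact hh.comp_measurePreserving (measurePreserving_eval (fun _ : Fin n => ga) i)

lemma abs_rpow_le (a : ℝ) : |a| ^ (4 / 3 : ℝ) ≤ 1 + a ^ 2 := by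
  rcases le_total |a| 1 with h | h
  · have h1 : |a| ^ (4 / 3 : ℝ) ≤ 1 := Real.rpow_le_one (abs_nonneg a) h (by norm_num)
    nlinarith [sq_nonneg a]
  · have h1 : |a| ^ (4 / 3 : ℝ) ≤ |a| ^ (2 : ℝ) :=
      Real.rpow_le_rpow_of_exponent_le h (by norm_num)
    rw [Real.rpow_two, sq_abs] at h1
    linarith

lemma three_terms (a b c : ℝ) (hc : |c| ≤ 1) :
    |a + b + c| ^ (4 / 3 : ℝ) ≤ 5 * (2 + a ^ 2 + |b| ^ (4 / 3 : ℝ)) := by
  set M : ℝ := max (max |a| |b|) 1 with hM
  have hM1 : 1 ≤ M := le_max_right _ _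
  have ha : |a| ≤ M := (le_max_left _ _).trans (le_max_left _ _)
  have hb : |b| ≤ M := (le_max_right _ _).trans (le_max_left _ _)
  have h1 : |a + b + c| ≤ 3 * M := by
    calc |a + b + c| ≤ |a + b| + |c| := abs_add_le _ _
      _ ≤ |a| + |b| + |c| := by gcongr; exact abs_add_le _ _
      _ ≤ 3 * M := by linarith
  have h2 : |a + b + c| ^ (4 / 3 : ℝ) ≤ (3 * M) ^ (4 / 3 : ℝ) :=
    Real.rpow_le_rpow (abs_nonneg _) h1 (by norm_num)
  have h3 : (3 * M) ^ (4 / 3 : ℝ) = 3 ^ (4 / 3 : ℝ) * M ^ (4 / 3 : ℝ) :=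
    Real.mul_rpow (by norm_num) (by linarith)
  have h4 : (3 : ℝ) ^ (4 / 3 : ℝ) ≤ 5 := by
    have e : ((3 : ℝ) ^ (4 / 3 : ℝ)) ^ 3 = 81 := by
      rw [← Real.rpow_natCast, ← Real.rpow_mul (by norm_num)]
      norm_num
    by_contra hcon
    push Not at hcon
    have : (5 : ℝ) ^ 3 < ((3 : ℝ) ^ (4 / 3 : ℝ)) ^ 3 := by gcongr
    rw [e] at this
    norm_num at this
  have h5 : M ^ (4 / 3 : ℝ) ≤ 2 + a ^ 2 + |b| ^ (4 / 3 : ℝ) := by
    have hbn : 0 ≤ |b| ^ (4 / 3 : ℝ) := by positivity
    rcases max_choice (max |a| |b|) 1 with h | h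
    · rcases max_choice |a| |b| with h' | h'
      · rw [hM, h, h']
        have := abs_rpow_le a
        linarith
      · rw [hM, h, h']
        nlinarith [sq_nonneg a]
    · rw [hM, h, Real.one_rpow]
      nlinarith [sq_nonneg a]
  have hM0 : 0 ≤ M ^ (4 / 3 : ℝ) := by positivity
  calc _ ≤ _ := h2
    _ = _ := h3
    _ ≤ 5 * M ^ (4 / 3 : ℝ) := by gcongr
    _ ≤ _ := by gcongr

/-- integrability of the error -/
lemma int_err (X : ℝ) (p : ℝ[X]) {I : Set ℝ} (hI : MeasurableSet I) :
    Integrable (fun y => (I.indicator (1 : ℝ → ℝ) y - p.eval y) ^ 2 * Th X y) := by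
  have hdom : Integrable (fun y => (2 + 2 * p.eval y ^ 2) * omA X y) := by
    have := int_omA X (2 + 2 * p ^ 2)
    simpa using this
  refine hdom.mono' ?_ (Eventually.of_forall fun y => ?_)
  · have h1 : Measurable (fun y => I.indicator (1 : ℝ → ℝ) y) := measurable_one.indicator hI
    have h2 : Measurable (fun y => p.eval y) := p.continuous.measurable
    exact (((h1.sub h2).pow_const 2).mul (Th_continuous X).measurable).aestronglyMeasurable
  · have h3 := Th_pos X y
    have h4 := Th_le_omA X y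
    have h5 := omA_pos X y
    rw [Real.norm_of_nonneg (by positivity)]
    have h6 : (I.indicator (1 : ℝ → ℝ) y - p.eval y) ^ 2 ≤ 2 + 2 * p.eval y ^ 2 := by
      by_cases h : y ∈ I
      · simp only [h, indicator_of_mem, Pi.one_apply]
        nlinarith [sq_nonneg (1 + p.eval y)]
      · simp only [h, not_false_eq_true, indicator_of_notMem]
        nlinarith [sq_nonneg (p.eval y)]
    calc _ ≤ (2 + 2 * p.eval y ^ 2) * Th X y := by gcongr
      _ ≤ _ := by gcongr

/-- Upper bound for the norm of `f`. -/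
theorem upper (n : ℕ) (X w T : ℝ) (hX : 2 ≤ X) (hwX : w ≤ X) (g : ℝ[X])
    (hg0 : ∫ y, g.eval y ∂ga = 0)
    (hm : theta n X * ∫ y in Icc (X - w) X, omA X y ≤ 6)
    (hT : ∫ y, ((Icc (X - w) X).indicator (1 : ℝ → ℝ) y - g.eval y) ^ 2 * Th X y ≤ T)
    (hT2 : T * (80 * (1 + theta n X) ^ 3) ≤ 1) :
    ∫ x, |∑ i : Fin n, g.eval (x i)| ^ (4 / 3 : ℝ) ∂(gn n) ≤ 80 := by
  have hX0 : 0 < X := by linarith
  set θ := theta n X with hθdef
  have hθ : 0 ≤ θ := theta_nonneg n X
  set I : Set ℝ := Icc (X - w) X with hI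
  have hIm : MeasurableSet I := measurableSet_Icc
  have hIJ : ∀ y ∈ I, y ∈ Icc (-X) X := by
    intro y hy
    exact ⟨by linarith [hy.1], hy.2⟩
  set r : ℝ → ℝ := fun y => I.indicator (1 : ℝ → ℝ) y - g.eval y with hr
  have hTint : Integrable (fun y => (r y) ^ 2 * Th X y) := int_err X g hIm
  have hT0 : 0 ≤ T := le_trans (integral_nonneg fun y => by
    have := Th_pos X y
    positivity) hT
  set g1 : ℝ → ℝ := (Icc (-X) X).indicator (fun y => g.eval y) with hg1
  set g2 : ℝ → ℝ := (Rr X).indicator (fun y => g.eval y) with hg2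
  have hsplit : ∀ y, g.eval y = g1 y + g2 y := by
    intro y
    by_cases h : y ∈ Icc (-X) X
    · simp [hg1, hg2, Rr, h]
    · simp [hg1, hg2, Rr, h]
  have hg1L : MemLp g1 2 ga := (memLp_poly2 g).indicator measurableSet_Icc
  have hg2L : MemLp g2 2 ga := (memLp_poly2 g).indicator (Rr_meas X)
  have hg1i : Integrable g1 ga := hg1L.integrable (by norm_num)
  have hg2i : Integrable g2 ga := hg2L.integrable (by norm_num)
  have hg2meas : Measurable g2 := g.continuous.measurable.indicator (Rr_meas X)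
  have hsum0 : ∫ y, g1 y ∂ga = - ∫ y, g2 y ∂ga := by
    have : ∫ y, g.eval y ∂ga = ∫ y, g1 y ∂ga + ∫ y, g2 y ∂ga := by
      rw [← integral_add hg1i hg2i]
      congr 1
      ext y
      exact hsplit y
    linarith
  have hrR : ∀ y ∈ Rr X, g2 y = - r y := by
    intro y hy
    have h1 : y ∉ I := fun h => hy (hIJ y h)
    simp [hg2, hr, hy, h1]
  -- the first part
  have hA : n * ∫ y, (g1 y) ^ 2 ∂ga ≤ 13 := by
    rw [conv n X]
    have hmono : ∫ y, g1 y ^ 2 * omA X y ≤
        2 * (∫ y in I, omA X y) + 4 * ∫ y, (r y) ^ 2 * Th X y := by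
      rw [← integral_indicator hIm, ← integral_const_mul, ← integral_const_mul, ← integral_add
        (((int_omA_one X).indicator hIm).const_mul _) (hTint.const_mul _)]
      refine integral_mono_of_nonneg (Eventually.of_forall fun y => ?_)
        ((((int_omA_one X).indicator hIm).const_mul _).add (hTint.const_mul _))
        (Eventually.of_forall fun y => ?_)
      · have := omA_pos X y
        positivity
      · have h1 := omA_pos X y
        have h2 := Th_pos X y
        simp only
        by_cases hy : y ∈ Icc (-X) X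
        · have h3 : g1 y = g.eval y := by simp [hg1, hy]
          have h4 : y ^ 2 ≤ X ^ 2 := notMem_Rr_sq (by simp [Rr, hy])
          have h5 := omA_le_two_Th h4
          have h6 : g.eval y ^ 2 ≤ 2 * (I.indicator (1 : ℝ → ℝ) y) ^ 2 + 2 * (r y) ^ 2 := by
            have : g.eval y = I.indicator (1 : ℝ → ℝ) y - r y := by simp [hr]
            rw [this]
            nlinarith [sq_nonneg (I.indicator (1 : ℝ → ℝ) y + r y)]
          rw [h3]
          have h7 : (I.indicator (1 : ℝ → ℝ) y) ^ 2 * omA X y = I.indicator (omA X) y := by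
            by_cases hyI : y ∈ I <;> simp [hyI]
          calc g.eval y ^ 2 * omA X y
              ≤ (2 * (I.indicator (1 : ℝ → ℝ) y) ^ 2 + 2 * (r y) ^ 2) * omA X y := by gcongr
            _ = 2 * I.indicator (omA X) y + 2 * (r y) ^ 2 * omA X y := by rw [← h7]; ring
            _ ≤ 2 * I.indicator (omA X) y + 2 * (r y) ^ 2 * (2 * Th X y) := by gcongr
            _ = _ := by ring
        · have h3 : g1 y = 0 := by simp [hg1, hy]
          rw [h3]
          have h4 : 0 ≤ I.indicator (omA X) y := indicator_nonneg (fun _ _ => (omA_pos X _).le) _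
          have h5 : 0 ≤ r y ^ 2 * Th X y := by positivity
          linarith
    calc θ * ∫ y, g1 y ^ 2 * omA X y
        ≤ θ * (2 * (∫ y in I, omA X y) + 4 * ∫ y, (r y) ^ 2 * Th X y) := by gcongr
      _ ≤ θ * (2 * (∫ y in I, omA X y) + 4 * T) := by gcongr
      _ = 2 * (θ * ∫ y in I, omA X y) + 4 * (θ * T) := by ring
      _ ≤ 13 := by
        have h1 : 4 * (θ * T) ≤ T * (80 * (1 + θ) ^ 3) := by
          have : 4 * θ ≤ 80 * (1 + θ) ^ 3 := by nlinarith [pow_nonneg hθ 2, pow_nonneg hθ 3]
          nlinarith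
        linarith
  -- mass of the outer region
  have hR1 : n * ga.real (Rr X) ≤ θ := by
    have h1 := conv_set n X (fun _ => (1 : ℝ)) (Rr_meas X)
    simp only [integral_const, MeasurableSet.univ, measureReal_restrict_apply, univ_inter,
      smul_eq_mul, mul_one, one_mul] at h1
    rw [h1]
    have h2 : ∫ y in Rr X, omA X y ≤ 1 := by
      have h3 := tail_R (c := 1 / 2) (X := X) (by norm_num) hX0
      have h4 : ∀ y, omA X y = Real.exp (-(1 / 2) * (y ^ 2 - X ^ 2)) := by
        intro y
        unfold omA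
        congr 1
        ring
      simp_rw [h4]
      refine h3.trans ?_
      rw [div_le_one (by positivity)]
      linarith
    calc θ * ∫ y in Rr X, omA X y ≤ θ * 1 := by gcongr
      _ = θ := mul_one θ
  -- the 4/3 moment of the outer part
  have hg2r : Integrable (fun y => |g2 y| ^ (4 / 3 : ℝ)) ga := by
    have hd : Integrable (fun y => 1 + (g2 y) ^ 2) ga :=
      (integrable_const 1).add ((memLp_two_iff_integrable_sq hg2L.1).mp hg2L)
    refine hd.mono' ?_ (Eventually.of_forall fun y => ?_)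
    · exact (hg2meas.abs.pow_const _).aestronglyMeasurable
    · rw [Real.norm_of_nonneg (by positivity)]
      exact abs_rpow_le _
  set lam : ℝ := 20 * (1 + θ) with hlam
  have hlam0 : 0 < lam := by positivity
  have hB : n * ∫ y, |g2 y| ^ (4 / 3 : ℝ) ∂ga ≤ 1 / (1 + θ) := by
    rw [conv n X]
    have i4 : Integrable (fun y : ℝ => (Rr X).indicator
        (fun y => Real.exp (-(1 / 4) * (y ^ 2 - X ^ 2))) y) := by
      apply Integrable.indicator _ (Rr_meas X)
      have hexp : ∀ y : ℝ, Real.exp (-(1 / 4) * (y ^ 2 - X ^ 2)) =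
          Real.exp ((1 / 4) * X ^ 2) * Real.exp (-(1 / 4) * y ^ 2) := by
        intro y
        rw [← Real.exp_add]
        congr 1
        ring
      simp_rw [hexp]
      exact (integrable_exp_neg_mul_sq (by norm_num)).const_mul _
    have hmono : ∫ y, |g2 y| ^ (4 / 3 : ℝ) * omA X y ≤
        lam * (∫ y, (r y) ^ 2 * Th X y) + 4 * (lam ^ 2)⁻¹ *
          ∫ y in Rr X, Real.exp (-(1 / 4) * (y ^ 2 - X ^ 2)) := by
      rw [← integral_indicator (Rr_meas X), ← integral_const_mul, ← integral_const_mul,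
        ← integral_add (hTint.const_mul _) (i4.const_mul _)]
      refine integral_mono_of_nonneg (Eventually.of_forall fun y => ?_)
        ((hTint.const_mul _).add (i4.const_mul _)) (Eventually.of_forall fun y => ?_)
      · have := omA_pos X y
        positivity
      · have h1 := omA_pos X y
        have h2 := Th_pos X y
        simp only
        by_cases hy : y ∈ Rr X
        · rw [indicator_of_mem hy, hrR y hy, abs_neg]
          exact four_thirds hlam0 (mem_Rr_sq hX0.le hy)
        · rw [indicator_of_notMem hy]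
          have : g2 y = 0 := by simp [hg2, hy]
          rw [this, abs_zero, Real.zero_rpow (by norm_num)]
          have : 0 ≤ lam * (r y ^ 2 * Th X y) := by positivity
          linarith
    have htail := tail_R (c := 1 / 4) (X := X) (by norm_num) hX0
    have htail2 : ∫ y in Rr X, Real.exp (-(1 / 4) * (y ^ 2 - X ^ 2)) ≤ 2 := by
      refine htail.trans ?_
      rw [div_le_iff₀ (by positivity)]
      linarith
    calc θ * ∫ y, |g2 y| ^ (4 / 3 : ℝ) * omA X y
        ≤ θ * (lam * (∫ y, (r y) ^ 2 * Th X y) + 4 * (lam ^ 2)⁻¹ *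
          ∫ y in Rr X, Real.exp (-(1 / 4) * (y ^ 2 - X ^ 2))) := by gcongr
      _ ≤ θ * (lam * T + 4 * (lam ^ 2)⁻¹ * 2) := by gcongr
      _ ≤ 1 / (1 + θ) := by
        rw [le_div_iff₀ (by positivity)]
        have e1 : θ * (lam * T + 4 * (lam ^ 2)⁻¹ * 2) * (1 + θ) =
            20 * θ * (1 + θ) ^ 2 * T + θ / (50 * (1 + θ)) := by
          rw [hlam]
          field_simp
          ring
        rw [e1]
        have e2 : θ / (50 * (1 + θ)) ≤ 1 / 50 := by
          rw [div_le_div_iff₀ (by positivity) (by norm_num)]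
          linarith
        have e3 : 20 * θ * (1 + θ) ^ 2 * T ≤ 1 / 4 := by
          have : 20 * θ * (1 + θ) ^ 2 ≤ 20 * (1 + θ) ^ 3 := by
            nlinarith [sq_nonneg (1 + θ)]
          nlinarith
        linarith
  -- the constant
  have hC : |n * ∫ y, g1 y ∂ga| ≤ 1 := by
    rw [hsum0, mul_neg, abs_neg, conv n X, abs_mul, abs_of_nonneg hθ]
    set lam' : ℝ := 4 * (1 + θ) with hlam'
    have hlam'0 : 0 < lam' := by positivity
    have hmono : |∫ y, g2 y * omA X y| ≤ lam' * (∫ y, (r y) ^ 2 * Th X y) +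
        lam'⁻¹ * (2 * ∫ y in Rr X, omB X y) := by
      calc |∫ y, g2 y * omA X y| ≤ ∫ y, |g2 y * omA X y| := abs_integral_le_integral_abs
        _ ≤ _ := by
          rw [← integral_indicator (Rr_meas X), ← integral_const_mul, ← integral_const_mul,
            ← integral_const_mul, ← integral_add (hTint.const_mul _)
              ((((int_omB_one X).indicator (Rr_meas X)).const_mul _).const_mul _)]
          refine integral_mono_of_nonneg (Eventually.of_forall fun y => abs_nonneg _)
            ((hTint.const_mul _).add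
              ((((int_omB_one X).indicator (Rr_meas X)).const_mul _).const_mul _))
            (Eventually.of_forall fun y => ?_)
          have h1 := omA_pos X y
          have h2 := Th_pos X y
          simp only
          by_cases hy : y ∈ Rr X
          · rw [indicator_of_mem hy, hrR y hy, abs_mul, abs_neg, abs_of_pos h1]
            have h3 := amgm (X := X) (y := y) (u := r y) (v := 1) hlam'0
            have h4 := omA_le_omB (mem_Rr_sq hX0.le hy)
            simp only [abs_one, mul_one, one_pow, one_mul] at h3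
            calc |r y| * omA X y ≤ _ := h3
              _ ≤ lam' * (r y ^ 2 * Th X y) + lam'⁻¹ * (2 * omB X y) := by
                gcongr
                linarith
          · rw [indicator_of_notMem hy]
            have : g2 y = 0 := by simp [hg2, hy]
            rw [this, zero_mul, abs_zero]
            positivity
    have htail : ∫ y in Rr X, omB X y ≤ 4 / 3 := by
      have h3 := tail_R (c := 3 / 8) (X := X) (by norm_num) hX0
      have h4 : ∀ y, omB X y = Real.exp (-(3 / 8) * (y ^ 2 - X ^ 2)) := by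
        intro y
        unfold omB
        congr 1
        ring
      simp_rw [h4]
      refine h3.trans ?_
      rw [div_le_div_iff₀ (by positivity) (by norm_num)]
      linarith
    calc θ * |∫ y, g2 y * omA X y| ≤ θ * (lam' * (∫ y, (r y) ^ 2 * Th X y) +
          lam'⁻¹ * (2 * ∫ y in Rr X, omB X y)) := by gcongr
      _ ≤ θ * (lam' * T + lam'⁻¹ * (2 * (4 / 3))) := by gcongr
      _ = 4 * θ * (1 + θ) * T + 2 / 3 * (θ / (1 + θ)) := by
        rw [hlam']
        field_simp
      _ ≤ 1 := by
        have e2 : θ / (1 + θ) ≤ 1 := by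
          rw [div_le_one (by positivity)]
          linarith
        have e3 : 4 * θ * (1 + θ) * T ≤ 1 / 20 := by
          have : 4 * θ * (1 + θ) ≤ 4 * (1 + θ) ^ 3 := by nlinarith [pow_nonneg hθ 2, pow_nonneg hθ 3]
          nlinarith
        linarith
  -- assemble
  set c : ℝ := n * ∫ y, g1 y ∂ga with hc
  have hpt : ∀ x : Fin n → ℝ, |∑ i : Fin n, g.eval (x i)| ^ (4 / 3 : ℝ) ≤
      5 * (2 + (∑ i : Fin n, g1 (x i) - c) ^ 2 + |∑ i : Fin n, g2 (x i)| ^ (4 / 3 : ℝ)) := by
    intro x
    have : ∑ i : Fin n, g.eval (x i) =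
        (∑ i : Fin n, g1 (x i) - c) + (∑ i : Fin n, g2 (x i)) + c := by
      simp_rw [hsplit, Finset.sum_add_distrib]
      ring
    rw [this]
    exact three_terms _ _ _ hC
  have iA : Integrable (fun x : Fin n → ℝ => (∑ i : Fin n, g1 (x i) - c) ^ 2) (gn n) := by
    have h1 : MemLp (fun x : Fin n → ℝ => ∑ i : Fin n, g1 (x i) - c) 2 (gn n) :=
      (memLp_sum hg1L).sub (memLp_const c)
    exact (memLp_two_iff_integrable_sq h1.1).mp h1
  have iB : Integrable (fun x : Fin n → ℝ => |∑ i : Fin n, g2 (x i)| ^ (4 / 3 : ℝ)) (gn n) := by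
    have h1 := memLp_sum (n := n) hg2L
    have hd : Integrable (fun x : Fin n → ℝ => 1 + (∑ i : Fin n, g2 (x i)) ^ 2) (gn n) :=
      (integrable_const 1).add ((memLp_two_iff_integrable_sq h1.1).mp h1)
    refine hd.mono' ?_ (Eventually.of_forall fun y => ?_)
    · have : Measurable (fun x : Fin n → ℝ => ∑ i : Fin n, g2 (x i)) := by fun_prop
      exact (this.abs.pow_const _).aestronglyMeasurable
    · rw [Real.norm_of_nonneg (by positivity)]
      exact abs_rpow_le _
  have hEA := centred_sum_sq n g1 hg1L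
  have hEB := rare_sum_bound n (Rr X) (Rr_meas X) g2 hg2meas
    (fun y hy => by simp [hg2, hy]) hg2r
  have hEB1 : ∫ x, |∑ i : Fin n, g2 (x i)| ^ (4 / 3 : ℝ) ∂(gn n) ≤ 1 := by
    refine hEB.trans ?_
    calc (1 + n * ga.real (Rr X)) * (n * ∫ y, |g2 y| ^ (4 / 3 : ℝ) ∂ga)
        ≤ (1 + θ) * (1 / (1 + θ)) := by gcongr
      _ = 1 := by field_simp
  calc ∫ x, |∑ i : Fin n, g.eval (x i)| ^ (4 / 3 : ℝ) ∂(gn n)
      ≤ ∫ x, 5 * (2 + (∑ i : Fin n, g1 (x i) - c) ^ 2 + |∑ i : Fin n, g2 (x i)| ^ (4 / 3 : ℝ))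
          ∂(gn n) := by
        refine integral_mono_of_nonneg (Eventually.of_forall fun x => by positivity) ?_
          (Eventually.of_forall hpt)
        exact (((integrable_const 2).add iA).add iB).const_mul 5
    _ = 5 * (2 + ∫ x, (∑ i : Fin n, g1 (x i) - c) ^ 2 ∂(gn n) +
          ∫ x, |∑ i : Fin n, g2 (x i)| ^ (4 / 3 : ℝ) ∂(gn n)) := by
        rw [integral_const_mul]
        congr 1
        have i2A : Integrable (fun x : Fin n → ℝ => 2 + (∑ i : Fin n, g1 (x i) - c) ^ 2) (gn n) :=
          (integrable_const 2).add iA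
        rw [integral_add i2A iB, integral_add (integrable_const 2) iA]
        simp
    _ ≤ 5 * (2 + 13 + 1) := by
        gcongr
        exact hEA.trans hA
    _ = 80 := by norm_num

end

end Pool.Agent.Lib28.Heat
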