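import Mathlib
import Pool.Agent.Lib_helper28.Heat.Two
import Pool.Agent.Lib_helper26.Heat.PtSymm

/-! Lower bound of the pairing. -/

set_option autoImplicit false

open MeasureTheory ProbabilityTheory Set Polynomial Filter Topology

namespace Pool.Agent.Lib28.Heat

open PM

noncomputable section

lemma Pt_meas (t : ℝ) {h : ℝ → ℝ} (hh : Measurable h) : Measurable (Pt t h) := by
  have h1 : StronglyMeasurable (fun x : ℝ => ∫ v, (fun z : ℝ × ℝ =>
      h (Real.exp (-t) * z.1 + Real.sqrt (1 - Real.exp (-2 * t)) * z.2)) (x, v) ∂ga) := by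
    apply StronglyMeasurable.integral_prod_right
    apply Measurable.stronglyMeasurable
    fun_prop
  exact h1.measurable

lemma Pt_ind_nonneg (t : ℝ) (I : Set ℝ) (x : ℝ) : 0 ≤ Pt t (I.indicator 1) x :=
  integral_nonneg fun _ => indicator_nonneg (fun _ _ => zero_le_one) _

lemma Pt_ind_le_one (t : ℝ) {I : Set ℝ} (x : ℝ) :
    Pt t (I.indicator 1) x ≤ 1 := by
  unfold Pt
  calc ∫ v, I.indicator (1 : ℝ → ℝ) (Real.exp (-t) * x + Real.sqrt (1 - Real.exp (-2 * t)) * v) ∂ga
      ≤ ∫ v, (1 : ℝ) ∂ga := by
        refine integral_mono_of_nonneg (Eventually.of_forall fun _ =>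
          indicator_nonneg (fun _ _ => zero_le_one) _) (integrable_const 1)
          (Eventually.of_forall fun _ => ?_)
        exact indicator_le_self' (fun _ _ => zero_le_one) _
    _ = 1 := by simp

lemma Pt_one (t : ℝ) (x : ℝ) : Pt t (fun _ => 1) x = 1 := by
  unfold Pt
  simp

/-- The lower bound for the pairing. -/
theorem lower (n : ℕ) (X w T t : ℝ) (hX : 2 ≤ X) (ht : 0 ≤ t) (g : ℝ[X])
    (hm : theta n X * ∫ y in Icc (X - w) X, omA X y ≤ 6)
    (hbump : 1 / 20 ≤ n * ∫ y in Icc (X - w) X, Pt t ((Icc (X - w) X).indicator 1) y ∂ga)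
    (hT : ∫ y, ((Icc (X - w) X).indicator (1 : ℝ → ℝ) y - g.eval y) ^ 2 * Th X y ≤ T)
    (hT2 : T * (100000 * (1 + theta n X) ^ 3) ≤ 1) :
    1 / 40 ≤ n * ∫ y in Icc (X - w) X, Pt t (fun u => g.eval u) y ∂ga := by
  have hX0 : 0 < X := by linarith
  set θ := theta n X with hθdef
  have hθ : 0 ≤ θ := theta_nonneg n X
  set I : Set ℝ := Icc (X - w) X with hI
  have hIm : MeasurableSet I := measurableSet_Icc
  set b : ℝ → ℝ := I.indicator 1 with hb
  have hbm : Measurable b := measurable_one.indicator hIm
  have hb0 : ∀ y, 0 ≤ b y := fun y => indicator_nonneg (fun _ _ => zero_le_one) _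
  have hb1 : ∀ y, b y ≤ 1 := fun y => indicator_le_self' (fun _ _ => zero_le_one) _
  have hbi : Integrable b ga := (integrable_const 1).indicator hIm
  set r : ℝ → ℝ := fun y => b y - g.eval y with hr
  have hTint : Integrable (fun y => (r y) ^ 2 * Th X y) := int_err X g hIm
  have hT0 : 0 ≤ T := le_trans (integral_nonneg fun y => by
    have := Th_pos X y
    positivity) hT
  set P : ℝ → ℝ := Pt t b with hP
  have hPm : Measurable P := Pt_meas t hbm
  have hP0 : ∀ y, 0 ≤ P y := fun y => Pt_ind_nonneg t I y
  have hP1 : ∀ y, P y ≤ 1 := fun y => Pt_ind_le_one t y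
  have hgi := PM.integrable_poly g
  have hri : Integrable r ga := hbi.sub hgi
  -- symmetry
  have hs1 : ∫ y in I, Pt t (fun u => g.eval u) y ∂ga = ∫ y, g.eval y * P y ∂ga := by
    have h1 := Pool.Agent.Lib_helper26.Heat.Pt_symm t ht (fun u => g.eval u) b
      g.continuous.measurable hbm g (fun _ => le_rfl) (fun x => by
        rw [abs_of_nonneg (hb0 x)]
        exact hb1 x)
    rw [← h1, ← integral_indicator hIm]
    congr 1
    ext y
    by_cases h : y ∈ I <;> simp [hb, h]
  have hs2 : ∫ y, P y ∂ga = ∫ y, b y ∂ga := by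
    have h1 := Pool.Agent.Lib_helper26.Heat.Pt_symm t ht b (fun _ => 1) hbm measurable_const 1
      (fun x => by
        rw [abs_of_nonneg (hb0 x)]
        simpa using hb1 x) (fun x => by simp)
    simp only [Pt_one, mul_one] at h1
    exact h1
  have hbP : Integrable (fun y => b y * P y) ga := by
    refine (integrable_const (1 : ℝ)).mono' (hbm.mul hPm).aestronglyMeasurable
      (Eventually.of_forall fun y => ?_)
    rw [Real.norm_of_nonneg (mul_nonneg (hb0 y) (hP0 y))]
    exact mul_le_one₀ (hb1 y) (hP0 y) (hP1 y)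
  have hrP : Integrable (fun y => r y * P y) ga := by
    refine hri.norm.mono' ((hri.1.mul hPm.aestronglyMeasurable)) (Eventually.of_forall fun y => ?_)
    rw [norm_mul, Real.norm_of_nonneg (hP0 y)]
    exact mul_le_of_le_one_right (norm_nonneg _) (hP1 y)
  have hs3 : ∫ y, g.eval y * P y ∂ga = ∫ y, b y * P y ∂ga - ∫ y, r y * P y ∂ga := by
    rw [← integral_sub hbP hrP]
    congr 1
    ext y
    simp only [hr]
    ring
  have hs4 : ∫ y, b y * P y ∂ga = ∫ y in I, P y ∂ga := by
    rw [← integral_indicator hIm]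
    congr 1
    ext y
    by_cases h : y ∈ I <;> simp [hb, h]
  -- the error term
  set lam : ℝ := 1000 * (1 + θ) with hlam
  have hlam0 : 0 < lam := by positivity
  have hPA : Integrable (fun y => P y * omA X y) := by
    refine (int_omA_one X).mono' (hPm.mul (omA_continuous X).measurable).aestronglyMeasurable
      (Eventually.of_forall fun y => ?_)
    have := omA_pos X y
    rw [Real.norm_of_nonneg (mul_nonneg (hP0 y) this.le)]
    exact mul_le_of_le_one_left this.le (hP1 y)
  have hBi : Integrable (fun y => (Rr X).indicator (omB X) y) :=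
    (int_omB_one X).indicator (Rr_meas X)
  have herr : |n * ∫ y, r y * P y ∂ga| ≤ 1 / 40 := by
    rw [conv n X, abs_mul, abs_of_nonneg hθ]
    have hmono : |∫ y, r y * P y * omA X y| ≤ lam * (∫ y, (r y) ^ 2 * Th X y) +
        lam⁻¹ * (2 * (∫ y, P y * omA X y) + 2 * ∫ y in Rr X, omB X y) := by
      calc |∫ y, r y * P y * omA X y| ≤ ∫ y, |r y * P y * omA X y| := abs_integral_le_integral_abs
        _ ≤ _ := by
          have i3 : Integrable (fun y => lam⁻¹ * (2 * (P y * omA X y) +
              2 * (Rr X).indicator (omB X) y)) :=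
            ((hPA.const_mul 2).add (hBi.const_mul 2)).const_mul _
          have e : lam * (∫ y, (r y) ^ 2 * Th X y) +
              lam⁻¹ * (2 * (∫ y, P y * omA X y) + 2 * ∫ y in Rr X, omB X y) =
              ∫ y, (lam * ((r y) ^ 2 * Th X y) + lam⁻¹ * (2 * (P y * omA X y) +
              2 * (Rr X).indicator (omB X) y)) := by
            rw [integral_add (hTint.const_mul _) i3, integral_const_mul, integral_const_mul,
              integral_add (hPA.const_mul 2) (hBi.const_mul 2), integral_const_mul,
              integral_const_mul, integral_indicator (Rr_meas X)]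
          rw [e]
          refine integral_mono_of_nonneg (Eventually.of_forall fun y => abs_nonneg _)
            ((hTint.const_mul _).add i3) (Eventually.of_forall fun y => ?_)
          have h1 := omA_pos X y
          have h1' := omB_pos X y
          simp only
          rw [abs_mul, abs_mul, abs_of_pos h1]
          have h3 := amgm (X := X) (y := y) (u := r y) (v := P y) hlam0
          refine h3.trans ?_
          have h4 : P y ^ 2 * (omA X y + omB X y) ≤ 2 * (P y * omA X y) +
              2 * (Rr X).indicator (omB X) y := by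
            have hp0 := hP0 y
            have hp1 := hP1 y
            have hpp : P y ^ 2 ≤ P y := by nlinarith
            by_cases hy : y ∈ Rr X
            · rw [indicator_of_mem hy]
              have e1 : P y ^ 2 * omA X y ≤ P y * omA X y := by gcongr
              have e2 : P y ^ 2 * omB X y ≤ 1 * omB X y := by
                gcongr
                nlinarith
              nlinarith [mul_nonneg hp0 h1.le]
            · rw [indicator_of_notMem hy]
              have e0 := omB_le_omA (notMem_Rr_sq hy)
              have e1 : P y ^ 2 * (omA X y + omB X y) ≤ P y * (2 * omA X y) := by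
                gcongr
                linarith
              linarith
          gcongr
    have htail : ∫ y in Rr X, omB X y ≤ 4 / 3 := by
      have h3 := tail_R (c := 3 / 8) (X := X) (by norm_num) hX0
      have h4 : ∀ y, omB X y = Real.exp (-(3 / 8) * (y ^ 2 - X ^ 2)) := by
        intro y
        unfold omB
        congr 1
        ring
      simp_rw [h4]
      refine h3.trans ?_
      rw [div_le_div_iff₀ (by positivity) (by norm_num)]
      linarith
    have hPmass : θ * ∫ y, P y * omA X y ≤ 6 := by
      rw [← conv n X, hs2]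
      have : ∫ y, b y ∂ga = ∫ y in I, (1 : ℝ) ∂ga := by
        rw [← integral_indicator hIm]
        rfl
      rw [this, conv_set n X _ hIm]
      simpa using hm
    calc θ * |∫ y, r y * P y * omA X y| ≤ θ * (lam * (∫ y, (r y) ^ 2 * Th X y) +
          lam⁻¹ * (2 * (∫ y, P y * omA X y) + 2 * ∫ y in Rr X, omB X y)) := by gcongr
      _ ≤ θ * (lam * T + lam⁻¹ * (2 * (∫ y, P y * omA X y) + 2 * (4 / 3))) := by gcongr
      _ = θ * lam * T + lam⁻¹ * (2 * (θ * ∫ y, P y * omA X y) + θ * (8 / 3)) := by ring
      _ ≤ θ * lam * T + lam⁻¹ * (2 * 6 + θ * (8 / 3)) := by gcongr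
      _ ≤ 1 / 40 := by
        have e1 : θ * lam * T ≤ 1 / 100 := by
          rw [hlam]
          have : θ * (1000 * (1 + θ)) ≤ 1000 * (1 + θ) ^ 3 := by
            nlinarith [pow_nonneg hθ 2, pow_nonneg hθ 3]
          nlinarith
        have e2 : lam⁻¹ * (2 * 6 + θ * (8 / 3)) ≤ 12 / 1000 := by
          rw [hlam, inv_mul_le_iff₀ (by positivity)]
          linarith
        linarith
  rw [hs1, hs3, mul_sub, hs4]
  have h1 := abs_le.mp herr
  linarith [h1.2]

/-- A numerical bound. -/
lemma ga_unit : 1 / 5 ≤ ga.real (Icc 0 1) := by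
  have h1 : ga.real (Icc 0 1) = ∫ y in Icc (0 : ℝ) 1, (1 : ℝ) ∂ga := by simp
  have h2 := conv_set 1 0 (fun _ => (1 : ℝ)) (measurableSet_Icc (a := (0 : ℝ)) (b := 1))
  rw [Nat.cast_one, one_mul, ← h1] at h2
  rw [h2]
  have h3 : Real.exp (-(1 / 2)) ≤ ∫ y in Icc (0 : ℝ) 1, 1 * omA 0 y := by
    have h4 : ∫ y in Icc (0 : ℝ) 1, Real.exp (-(1 / 2)) ≤ ∫ y in Icc (0 : ℝ) 1, 1 * omA 0 y := by
      refine setIntegral_mono_on (by simp) ?_ measurableSet_Icc fun y hy => ?_
      · simp only [one_mul]
        exact (int_omA_one 0).integrableOn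
      · rw [one_mul]
        unfold omA
        apply Real.exp_le_exp.mpr
        nlinarith [hy.1, hy.2]
    simpa using h4
  have h5 : theta 1 0 = (Real.sqrt (2 * Real.pi))⁻¹ := by
    unfold theta
    simp
  rw [h5]
  have h6 : Real.sqrt (2 * Real.pi) ≤ 2.6 := by
    rw [Real.sqrt_le_left (by norm_num)]
    have := Real.pi_lt_d2
    norm_num
    linarith
  have h7 : Real.exp (1 / 2) ≤ 1.7 := by
    have h8 : Real.exp (1 / 2) ^ 2 = Real.exp 1 := by
      rw [← Real.exp_nat_mul]
      norm_num
    have h9 := Real.exp_one_lt_d9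
    nlinarith [Real.exp_pos (1 / 2 : ℝ)]
  have h10 : Real.exp (-(1 / 2)) = (Real.exp (1 / 2))⁻¹ := Real.exp_neg _
  have h11 : (0 : ℝ) < Real.sqrt (2 * Real.pi) := Real.sqrt_pos.mpr (by positivity)
  calc (1 / 5 : ℝ) ≤ (Real.sqrt (2 * Real.pi))⁻¹ * Real.exp (-(1 / 2)) := by
        rw [h10, ← mul_inv, one_div]
        apply inv_anti₀ (by positivity)
        nlinarith [Real.exp_pos (1 / 2 : ℝ)]
    _ ≤ _ := by gcongr

/-- The bump survives. -/
theorem bump (n : ℕ) (X w t : ℝ) (hX : 2 ≤ X) (hw : 0 < w) (hwX : w ≤ 1) (ht : 0 ≤ t)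
    (h1 : t * X ≤ w / 4) (h2 : Real.sqrt (1 - Real.exp (-2 * t)) ≤ w / 2)
    (hθw : 1 ≤ theta n X * w) :
    1 / 20 ≤ n * ∫ y in Icc (X - w) X, Pt t ((Icc (X - w) X).indicator 1) y ∂ga := by
  have hX0 : 0 < X := by linarith
  set θ := theta n X with hθdef
  have hθ : 0 ≤ θ := theta_nonneg n X
  set I : Set ℝ := Icc (X - w) X with hI
  have hIm : MeasurableSet I := measurableSet_Icc
  set J : Set ℝ := Icc (X - 3 * w / 4) (X - w / 2) with hJ
  have hJm : MeasurableSet J := measurableSet_Icc
  have hJI : J ⊆ I := Icc_subset_Icc (by linarith) (by linarith)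
  set σ : ℝ := Real.sqrt (1 - Real.exp (-2 * t)) with hσ
  have hσ0 : 0 ≤ σ := Real.sqrt_nonneg _
  have hbm : Measurable (I.indicator (1 : ℝ → ℝ)) := measurable_one.indicator hIm
  have hPm : Measurable (Pt t (I.indicator 1)) := Pt_meas t hbm
  have hPi : Integrable (Pt t (I.indicator 1)) ga := by
    refine (integrable_const (1 : ℝ)).mono' hPm.aestronglyMeasurable
      (Eventually.of_forall fun y => ?_)
    rw [Real.norm_of_nonneg (Pt_ind_nonneg t I y)]
    exact Pt_ind_le_one t y
  have hexp : 1 - t ≤ Real.exp (-t) := by linarith [Real.add_one_le_exp (-t)]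
  have hexp1 : Real.exp (-t) ≤ 1 := by
    rw [Real.exp_le_one_iff]
    linarith
  have hlow : ∀ y ∈ J, 1 / 5 ≤ Pt t (I.indicator 1) y := by
    intro y hy
    have hy0 : 0 ≤ y := by linarith [hy.1]
    have hyX : y ≤ X := by linarith [hy.2]
    calc (1 / 5 : ℝ) ≤ ga.real (Icc 0 1) := ga_unit
      _ = ∫ v, (Icc (0 : ℝ) 1).indicator (1 : ℝ → ℝ) v ∂ga := by
          rw [integral_indicator measurableSet_Icc]
          simp
      _ ≤ Pt t (I.indicator 1) y := by
          unfold Pt
          refine integral_mono_of_nonneg (Eventually.of_forall fun v =>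
            indicator_nonneg (fun _ _ => zero_le_one) _) ?_ (Eventually.of_forall fun v => ?_)
          · refine (integrable_const (1 : ℝ)).mono'
              (hbm.comp (by fun_prop)).aestronglyMeasurable (Eventually.of_forall fun v => ?_)
            have hnn : 0 ≤ I.indicator (1 : ℝ → ℝ)
                (Real.exp (-t) * y + Real.sqrt (1 - Real.exp (-2 * t)) * v) :=
              indicator_nonneg (fun _ _ => zero_le_one) _
            rw [Real.norm_of_nonneg hnn]
            exact indicator_le_self' (fun _ _ => zero_le_one) _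
          · simp only
            by_cases hv : v ∈ Icc (0 : ℝ) 1
            · have e1 : (1 - t) * y ≤ Real.exp (-t) * y := by gcongr
              have e2 : Real.exp (-t) * y ≤ 1 * y := by gcongr
              have e3 : t * y ≤ t * X := by gcongr
              have e4 : σ * v ≤ σ * 1 := by
                gcongr
                exact hv.2
              have e5 : 0 ≤ σ * v := mul_nonneg hσ0 hv.1
              have hmem : Real.exp (-t) * y + Real.sqrt (1 - Real.exp (-2 * t)) * v ∈ I := by
                constructor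
                · rw [← hσ]; linarith [hy.1]
                · rw [← hσ]; linarith [hy.2]
              rw [indicator_of_mem hv, indicator_of_mem hmem]
              simp
            · rw [indicator_of_notMem hv]
              exact indicator_nonneg (fun _ _ => zero_le_one) _
  have hJmass : w / 4 ≤ ∫ y in J, omA X y := by
    have h4 : ∫ y in J, (1 : ℝ) ≤ ∫ y in J, omA X y := by
      refine setIntegral_mono_on (by simp [hJ]) ((int_omA_one X).integrableOn) hJm fun y hy => ?_
      unfold omA
      rw [Real.one_le_exp_iff]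
      have hy0 : 0 ≤ y := by linarith [hy.1]
      have hyX : y ≤ X := by linarith [hy.2]
      nlinarith
    have h5 : ∫ y in J, (1 : ℝ) = w / 4 := by
      simp only [integral_const, MeasurableSet.univ, measureReal_restrict_apply, univ_inter,
        smul_eq_mul, mul_one]
      rw [hJ, Real.volume_real_Icc_of_le (by linarith)]
      ring
    linarith
  have hfin : n * ∫ y in J, (1 / 5 : ℝ) ∂ga ≤ n * ∫ y in I, Pt t (I.indicator 1) y ∂ga := by
    gcongr
    calc ∫ y in J, (1 / 5 : ℝ) ∂ga ≤ ∫ y in J, Pt t (I.indicator 1) y ∂ga :=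
          setIntegral_mono_on (by simp) hPi.integrableOn hJm hlow
      _ ≤ ∫ y in I, Pt t (I.indicator 1) y ∂ga :=
          setIntegral_mono_set hPi.integrableOn
            (Eventually.of_forall fun y => Pt_ind_nonneg t I y) hJI.eventuallyLE
  rw [conv_set n X _ hJm] at hfin
  calc (1 / 20 : ℝ) ≤ θ * ((1 / 5) * (w / 4)) := by nlinarith
    _ ≤ θ * ((1 / 5) * ∫ y in J, omA X y) := by gcongr
    _ = θ * ∫ y in J, 1 / 5 * omA X y := by rw [integral_const_mul]
    _ ≤ _ := hfin

end

end Pool.Agent.Lib28.Heat
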