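import Mathlib
import Pool.Agent.Lib_helper28.Heat.Three
import Pool.Agent.Lib_helper28.Heat.Barrier
import Pool.Agent.Lib_helper97.Heat.Dual

/-! Existence of the approximating polynomial, and the lower bound of the norm of `P_t f`. -/

set_option autoImplicit false

open MeasureTheory ProbabilityTheory Set Polynomial Filter Topology

namespace Pool.Agent.Lib28.Heat

open PM

noncomputable section

/-- Low degree polynomials do not see the interval. -/
lemma not_seen (C N : ℕ) (w : ℝ) (hC : 1 ≤ C) (hN : 2 ≤ N) (hw : 0 < w) (hw1 : w ≤ 1)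
    (hwN : w * N ≤ 1)
    (hwL : w ≤ 2 * N * Real.exp (-(32 * Real.pi * (C + 1))))
    (β : ℝ[X]) (hβ : β.natDegree < (C * N) ^ 2) :
    (∫ y in Icc ((N : ℝ) - w) N, β.eval y * omA N y) ^ 2 ≤
      (2 * (C * N + 1) * Real.exp 5 *
        Real.exp (-((N : ℝ) ^ 2 * Real.exp (-(32 * Real.pi * (C + 1))) / 64))) *
        ∫ y, (β.eval y) ^ 2 * (omA N y + omB N y) := by
  set X : ℝ := (N : ℝ) with hX
  have hX2 : 2 ≤ X := by rw [hX]; exact_mod_cast hN
  have hX0 : 0 < X := by linarith
  have hpi := Real.pi_pos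
  have hpi3 := Real.pi_gt_three
  set L0 : ℝ := 32 * Real.pi * (C + 1) with hL0
  have hC1 : (1 : ℝ) ≤ C := by exact_mod_cast hC
  have hL111 : 111 ≤ L0 := by
    rw [hL0]
    nlinarith
  set D : ℕ := (C * N) ^ 2 with hD
  have hsqD : Real.sqrt D = C * X := by
    rw [hD]
    push_cast
    rw [Real.sqrt_sq (by positivity)]
  have hLs : 32 * Real.pi * (Real.sqrt D / X + 1) ≤ L0 := by
    rw [hsqD, hL0]
    rw [mul_div_assoc, div_self hX0.ne', mul_one]
  set M : ℝ := ∫ y, (β.eval y) ^ 2 * (omA X y + omB X y) with hM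
  have iA : Integrable (fun y => (β.eval y) ^ 2 * omA X y) := by
    have := int_omA X (β ^ 2)
    simpa using this
  have iB : Integrable (fun y => (β.eval y) ^ 2 * omB X y) := by
    have h := (int_poly (a := 3 / 8) (by norm_num) (β ^ 2)).const_mul (Real.exp (3 * X ^ 2 / 8))
    refine h.congr (Eventually.of_forall fun y => ?_)
    simp only [eval_pow]
    unfold omB
    have : Real.exp (-(3 * (y ^ 2 - X ^ 2)) / 8) =
        Real.exp (3 * X ^ 2 / 8) * Real.exp (-(3 / 8) * y ^ 2) := by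
      rw [← Real.exp_add]
      congr 1
      ring
    rw [this]
    ring
  have hMsum : M = (∫ y, (β.eval y) ^ 2 * omA X y) + ∫ y, (β.eval y) ^ 2 * omB X y := by
    rw [hM, ← integral_add iA iB]
    congr 1
    ext y
    ring
  have hA0 : 0 ≤ ∫ y, (β.eval y) ^ 2 * omA X y :=
    integral_nonneg fun y => mul_nonneg (sq_nonneg _) (omA_pos X y).le
  have hB0 : 0 ≤ ∫ y, (β.eval y) ^ 2 * omB X y :=
    integral_nonneg fun y => mul_nonneg (sq_nonneg _) (omB_pos X y).le
  have hNA : N2 (1 / 2) β ≤ M * Real.exp (-(X ^ 2) / 2) := by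
    have h1 : N2 (1 / 2) β = (∫ y, (β.eval y) ^ 2 * omA X y) * Real.exp (-(X ^ 2) / 2) := by
      unfold N2
      rw [← integral_mul_const]
      congr 1
      ext y
      unfold omA
      rw [mul_assoc, ← Real.exp_add]
      congr 2
      ring
    rw [h1]
    gcongr
    linarith
  have hNB : N2 (3 / 8) β ≤ M * Real.exp (-(3 * X ^ 2) / 8) := by
    have h1 : N2 (3 / 8) β = (∫ y, (β.eval y) ^ 2 * omB X y) * Real.exp (-(3 * X ^ 2) / 8) := by
      unfold N2
      rw [← integral_mul_const]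
      congr 1
      ext y
      unfold omB
      rw [mul_assoc, ← Real.exp_add]
      congr 2
      ring
    rw [h1]
    gcongr
    linarith
  have hM0 : 0 ≤ M := by linarith
  set G : ℝ := 2 * (C * X + 1) * M * Real.exp 3 *
    Real.exp (-(X ^ 2 * Real.exp (-L0) / 64)) with hG
  have hG0 : 0 ≤ G := by positivity
  have hpt : ∀ y ∈ Icc (X - w) X, |β.eval y| ≤ Real.sqrt G := by
    intro y hy
    have hyX : |y - X| ≤ w := by
      rw [abs_le]
      constructor <;> linarith [hy.1, hy.2]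
    have h1 := lemmaL D hX2 hLs hL111 β hβ.le hNA hNB y (hyX.trans hwL)
    have h2 : Real.sqrt (D + 1) ≤ C * X + 1 := by
      rw [Real.sqrt_le_left (by positivity)]
      rw [hD]
      push_cast
      nlinarith [mul_nonneg (by linarith : (0 : ℝ) ≤ C) hX0.le]
    have h3 : 7 / 8 * X * |y - X| ≤ 1 := by
      calc 7 / 8 * X * |y - X| ≤ 7 / 8 * X * w := by gcongr
        _ ≤ 1 := by nlinarith
    have h4 : (β.eval y) ^ 2 ≤ G := by
      calc (β.eval y) ^ 2 ≤ _ := h1
        _ ≤ 2 * (C * X + 1) * M * Real.exp 2 * Real.exp 1 *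
            Real.exp (-(X ^ 2 * Real.exp (-L0) / 64)) := by gcongr
        _ = G := by
          rw [hG, mul_assoc (2 * (C * X + 1) * M) (Real.exp 2) (Real.exp 1), ← Real.exp_add]
          norm_num
    exact Real.abs_le_sqrt h4
  have hint : |∫ y in Icc (X - w) X, β.eval y * omA X y| ≤ Real.sqrt G * Real.exp 1 := by
    have h1 : ‖∫ y in Icc (X - w) X, β.eval y * omA X y‖ ≤
        (Real.sqrt G * Real.exp 1) * volume.real (Icc (X - w) X) := by
      apply norm_setIntegral_le_of_norm_le_const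
      · simp
      · intro y hy
        rw [norm_mul, Real.norm_eq_abs, Real.norm_of_nonneg (omA_pos X y).le]
        have h2 : omA X y ≤ Real.exp 1 := by
          unfold omA
          apply Real.exp_le_exp.mpr
          have : X ^ 2 - y ^ 2 ≤ w * (2 * X) := by
            have e1 : X - y ≤ w := by linarith [hy.1]
            have e2 : X + y ≤ 2 * X := by linarith [hy.2]
            have e3 : 0 ≤ X - y := by linarith [hy.2]
            nlinarith [hy.1]
          nlinarith
        have h3 := hpt y hy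
        have h4 := omA_pos X y
        gcongr
    rw [Real.norm_eq_abs, Real.volume_real_Icc_of_le (by linarith)] at h1
    calc _ ≤ _ := h1
      _ = (Real.sqrt G * Real.exp 1) * w := by ring
      _ ≤ (Real.sqrt G * Real.exp 1) * 1 := by gcongr
      _ = _ := mul_one _
  calc (∫ y in Icc (X - w) X, β.eval y * omA X y) ^ 2
      = |∫ y in Icc (X - w) X, β.eval y * omA X y| ^ 2 := (sq_abs _).symm
    _ ≤ (Real.sqrt G * Real.exp 1) ^ 2 := by gcongr
    _ = G * Real.exp 2 := by
        rw [mul_pow, Real.sq_sqrt hG0, ← Real.exp_nat_mul]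
        norm_num
    _ = _ := by
        rw [hG]
        have : Real.exp 5 = Real.exp 3 * Real.exp 2 := by
          rw [← Real.exp_add]
          norm_num
        rw [this]
        ring

/-- The Mehler semigroup maps polynomials to polynomials. -/
lemma Pt_poly (t : ℝ) (g : ℝ[X]) : ∃ q : ℝ[X], ∀ x, Pt t (fun u => g.eval u) x = q.eval x := by
  have hint : ∀ (p : ℝ[X]) (x : ℝ), Integrable (fun v => p.eval
      (Real.exp (-t) * x + Real.sqrt (1 - Real.exp (-2 * t)) * v)) ga := by
    intro p x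
    have := PM.integrable_poly (p.comp (Polynomial.C (Real.exp (-t) * x) +
      Polynomial.C (Real.sqrt (1 - Real.exp (-2 * t))) * Polynomial.X))
    simpa only [Polynomial.eval_comp, Polynomial.eval_add, Polynomial.eval_C, Polynomial.eval_mul,
      Polynomial.eval_X] using this
  induction g using Polynomial.induction_on' with
  | add p q hp hq =>
    obtain ⟨a, ha⟩ := hp
    obtain ⟨b, hb⟩ := hq
    refine ⟨a + b, fun x => ?_⟩
    rw [eval_add, ← ha, ← hb]
    unfold Pt
    simp only [eval_add]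
    exact integral_add (hint p x) (hint q x)
  | monomial k c =>
    refine ⟨∑ m ∈ Finset.range (k + 1), Polynomial.C (c * (Real.exp (-t) ^ m *
      (Real.sqrt (1 - Real.exp (-2 * t)) ^ (k - m) * ∫ v, v ^ (k - m) ∂ga) * (k.choose m))) *
      Polynomial.X ^ m, fun x => ?_⟩
    unfold Pt
    simp only [eval_monomial, eval_finsetSum, eval_mul, eval_C, eval_pow, eval_X]
    rw [integral_const_mul]
    have : ∀ v : ℝ, (Real.exp (-t) * x + Real.sqrt (1 - Real.exp (-2 * t)) * v) ^ k =
        ∑ m ∈ Finset.range (k + 1), (Real.exp (-t) * x) ^ m *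
          (Real.sqrt (1 - Real.exp (-2 * t)) ^ (k - m)) * (k.choose m) * v ^ (k - m) := by
      intro v
      rw [add_pow]
      refine Finset.sum_congr rfl fun m _ => ?_
      rw [mul_pow (Real.sqrt _) v]
      ring
    simp_rw [this]
    rw [integral_finsetSum _ fun m _ => (PM.integrable_pow (k - m)).const_mul _, Finset.mul_sum]
    refine Finset.sum_congr rfl fun m _ => ?_
    rw [integral_const_mul, mul_pow]
    ring

lemma one_sub_ge_exp {x : ℝ} (h0 : 0 ≤ x) (h1 : x ≤ 1 / 2) : Real.exp (-(2 * x)) ≤ 1 - x := by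
  rw [Real.exp_neg, inv_le_comm₀ (Real.exp_pos _) (by linarith), inv_eq_one_div,
    div_le_iff₀ (by linarith)]
  have := Real.add_one_le_exp (2 * x)
  nlinarith

/-- elementary inequality used instead of Jensen. -/
lemma le_rpow43 {s u : ℝ} (hs : 0 < s) : |u| ≤ s + s ^ (-(1 / 3) : ℝ) * |u| ^ (4 / 3 : ℝ) := by
  rcases le_total |u| s with h | h
  · have : 0 ≤ s ^ (-(1 / 3) : ℝ) * |u| ^ (4 / 3 : ℝ) := by positivity
    linarith
  · have hu : 0 < |u| := lt_of_lt_of_le hs h
    have h1 : |u| ^ (4 / 3 : ℝ) = |u| * |u| ^ (1 / 3 : ℝ) := by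
      rw [← Real.rpow_one_add' hu.le (by norm_num)]
      norm_num
    have h2 : s ^ (1 / 3 : ℝ) ≤ |u| ^ (1 / 3 : ℝ) := Real.rpow_le_rpow hs.le h (by norm_num)
    have h3 : s ^ (-(1 / 3) : ℝ) * s ^ (1 / 3 : ℝ) = 1 := by
      rw [← Real.rpow_add hs]
      norm_num
    have h4 : 0 < s ^ (-(1 / 3) : ℝ) := by positivity
    calc |u| = |u| * (s ^ (-(1 / 3) : ℝ) * s ^ (1 / 3 : ℝ)) := by rw [h3, mul_one]
      _ ≤ |u| * (s ^ (-(1 / 3) : ℝ) * |u| ^ (1 / 3 : ℝ)) := by gcongr
      _ = s ^ (-(1 / 3) : ℝ) * |u| ^ (4 / 3 : ℝ) := by rw [h1]; ring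
      _ ≤ _ := by linarith

/-- Lower bound for the norm of `P_t f`. -/
theorem lower_norm (n : ℕ) (X w t s : ℝ) (g : ℝ[X]) (hs : 0 < s)
    (hsk : 2 * s = Real.exp (-12) / 40) (hn : 12 ≤ n)
    (hg0 : ∫ y, Pt t (fun u => g.eval u) y ∂ga = 0)
    (hm : theta n X * ∫ y in Icc (X - w) X, omA X y ≤ 6)
    (hp : 1 / 40 ≤ n * ∫ y in Icc (X - w) X, Pt t (fun u => g.eval u) y ∂ga) :
    s ≤ (∫ x, |∑ i : Fin n, Pt t (fun u => g.eval u) (x i)| ^ (4 / 3 : ℝ) ∂(gn n)) ^
      (1 / (4 / 3) : ℝ) := by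
  obtain ⟨q, hq⟩ := Pt_poly t g
  simp_rw [hq] at hg0 hp ⊢
  set I : Set ℝ := Icc (X - w) X with hI
  have hIm : MeasurableSet I := measurableSet_Icc
  have hpn := pair_none n I hIm (fun y => q.eval y) (PM.integrable_poly q) hg0
  have hmass : n * ga.real I ≤ 6 := by
    have h1 := conv_set n X (fun _ => (1 : ℝ)) hIm
    simp only [integral_const, MeasurableSet.univ, measureReal_restrict_apply, univ_inter,
      smul_eq_mul, mul_one, one_mul] at h1
    rw [h1]
    exact hm
  have hn12 : (12 : ℝ) ≤ n := by exact_mod_cast hn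
  have hI0 : 0 ≤ ga.real I := measureReal_nonneg
  have hI2 : ga.real I ≤ 1 / 2 := by nlinarith
  have hpow : Real.exp (-12) ≤ (1 - ga.real I) ^ (n - 1) := by
    calc Real.exp (-12) ≤ Real.exp (((n - 1 : ℕ) : ℝ) * (-(2 * ga.real I))) := by
          apply Real.exp_le_exp.mpr
          have : ((n - 1 : ℕ) : ℝ) ≤ n := by exact_mod_cast Nat.sub_le n 1
          nlinarith
      _ = Real.exp (-(2 * ga.real I)) ^ (n - 1) := Real.exp_nat_mul _ _
      _ ≤ (1 - ga.real I) ^ (n - 1) := by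
          gcongr
          exact one_sub_ge_exp hI0 hI2
  have hqL : MemLp (fun x : Fin n → ℝ => ∑ i : Fin n, q.eval (x i)) 2 (gn n) :=
    memLp_sum (memLp_poly2 q)
  have hqi : Integrable (fun x : Fin n → ℝ => ∑ i : Fin n, q.eval (x i)) (gn n) :=
    hqL.integrable (by norm_num)
  have h43 : Integrable (fun x : Fin n → ℝ => |∑ i : Fin n, q.eval (x i)| ^ (4 / 3 : ℝ))
      (gn n) := by
    have hd : Integrable (fun x : Fin n → ℝ => 1 + (∑ i : Fin n, q.eval (x i)) ^ 2) (gn n) :=
      (integrable_const 1).add ((memLp_two_iff_integrable_sq hqL.1).mp hqL)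
    refine hd.mono' ?_ (Eventually.of_forall fun y => ?_)
    · have : Continuous (fun x : Fin n → ℝ => ∑ i : Fin n, q.eval (x i)) := by fun_prop
      exact (this.measurable.abs.pow_const _).aestronglyMeasurable
    · rw [Real.norm_of_nonneg (by positivity)]
      exact abs_rpow_le _
  -- L1 norm
  have hL1 : 2 * s ≤ ∫ x, |∑ i : Fin n, q.eval (x i)| ∂(gn n) := by
    have h1 : |∫ x, (∑ i : Fin n, q.eval (x i)) *
        ∏ j : Fin n, (Iᶜ).indicator (fun _ => (1 : ℝ)) (x j) ∂(gn n)| ≤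
        ∫ x, |∑ i : Fin n, q.eval (x i)| ∂(gn n) := by
      refine abs_integral_le_integral_abs.trans ?_
      refine integral_mono_of_nonneg (Eventually.of_forall fun x => abs_nonneg _) hqi.abs
        (Eventually.of_forall fun x => ?_)
      simp only
      rw [abs_mul]
      apply mul_le_of_le_one_right (abs_nonneg _)
      rw [Finset.abs_prod]
      apply Finset.prod_le_one
      · intro i _
        exact abs_nonneg _
      · intro i _
        by_cases h : x i ∈ Iᶜ <;> simp [h]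
    rw [hpn, abs_neg] at h1
    refine le_trans ?_ h1
    refine le_trans ?_ (le_abs_self _)
    rw [hsk]
    calc Real.exp (-12) / 40 = (1 / 40) * Real.exp (-12) := by ring
      _ ≤ (n * ∫ y in I, q.eval y ∂ga) * (1 - ga.real I) ^ (n - 1) := by
        gcongr
  have h4 : ∫ x, |∑ i : Fin n, q.eval (x i)| ∂(gn n) ≤
      s + s ^ (-(1 / 3) : ℝ) * ∫ x, |∑ i : Fin n, q.eval (x i)| ^ (4 / 3 : ℝ) ∂(gn n) := by
    have h5 : ∫ x, (s + s ^ (-(1 / 3) : ℝ) * |∑ i : Fin n, q.eval (x i)| ^ (4 / 3 : ℝ)) ∂(gn n) =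
        s + s ^ (-(1 / 3) : ℝ) * ∫ x, |∑ i : Fin n, q.eval (x i)| ^ (4 / 3 : ℝ) ∂(gn n) := by
      rw [integral_add (integrable_const _) (h43.const_mul _), integral_const_mul]
      simp
    rw [← h5]
    exact integral_mono hqi.abs ((integrable_const _).add (h43.const_mul _)) fun x => le_rpow43 hs
  set V : ℝ := ∫ x, |∑ i : Fin n, q.eval (x i)| ^ (4 / 3 : ℝ) ∂(gn n) with hV
  have hV0 : 0 ≤ V := integral_nonneg fun x => by positivity
  have h6 : s ≤ s ^ (-(1 / 3) : ℝ) * V := by linarith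
  have h7 : s ^ (4 / 3 : ℝ) ≤ V := by
    have e1 : s ^ (4 / 3 : ℝ) = s ^ (1 / 3 : ℝ) * s := by
      rw [← Real.rpow_add_one' hs.le (by norm_num)]
      norm_num
    have e2 : s ^ (1 / 3 : ℝ) * s ^ (-(1 / 3) : ℝ) = 1 := by
      rw [← Real.rpow_add hs]
      norm_num
    calc s ^ (4 / 3 : ℝ) = s ^ (1 / 3 : ℝ) * s := e1
      _ ≤ s ^ (1 / 3 : ℝ) * (s ^ (-(1 / 3) : ℝ) * V) := by gcongr
      _ = V := by rw [← mul_assoc, e2, one_mul]
  calc s = (s ^ (4 / 3 : ℝ)) ^ (1 / (4 / 3) : ℝ) := by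
        rw [← Real.rpow_mul hs.le]
        norm_num
    _ ≤ V ^ (1 / (4 / 3) : ℝ) := by gcongr

end

end Pool.Agent.Lib28.Heat
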