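import Mathlib
import Pool.Agent.Lib_helper28.Heat.Four

/-! Final assembly: heat smoothing fails for `p = 4/3`. -/

set_option autoImplicit false

open MeasureTheory ProbabilityTheory Set Polynomial Filter Topology

namespace Pool.Agent.Lib28.Heat

open PM

noncomputable section

/-- Choice of the large parameter. -/
lemma choose_N (C : ℕ) (A κ : ℝ) (hκ : 0 < κ) : ∃ N : ℕ, 3 ≤ N ∧ A ≤ N ∧
    A * Real.exp (32 * Real.pi * (C + 1)) ≤ (N : ℝ) ^ 2 ∧
    (C * N + 2 : ℝ) ^ 4 * Real.exp (-((N : ℝ) ^ 2 * κ)) ≤ 1 / 400000000 := by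
  have h1 : Tendsto (fun N : ℕ => (N : ℝ) * κ) atTop atTop :=
    tendsto_natCast_atTop_atTop.atTop_mul_const hκ
  have h2 : Tendsto (fun N : ℕ => ((N : ℝ) * κ) ^ 4 * Real.exp (-((N : ℝ) * κ))) atTop (𝓝 0) :=
    (Real.tendsto_pow_mul_exp_neg_atTop_nhds_zero 4).comp h1
  have h3 : Tendsto (fun N : ℕ => ((C + 2 : ℝ) ^ 4 / κ ^ 4) *
      (((N : ℝ) * κ) ^ 4 * Real.exp (-((N : ℝ) * κ)))) atTop (𝓝 0) := by
    simpa using h2.const_mul ((C + 2 : ℝ) ^ 4 / κ ^ 4)
  have e1 : ∀ᶠ N : ℕ in atTop, ((C + 2 : ℝ) ^ 4 / κ ^ 4) *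
      (((N : ℝ) * κ) ^ 4 * Real.exp (-((N : ℝ) * κ))) < 1 / 400000000 :=
    h3.eventually (gt_mem_nhds (by norm_num))
  have e2 : ∀ᶠ N : ℕ in atTop, A ≤ N := tendsto_natCast_atTop_atTop.eventually_ge_atTop A
  have e3 : ∀ᶠ N : ℕ in atTop, A * Real.exp (32 * Real.pi * (C + 1)) ≤ N :=
    tendsto_natCast_atTop_atTop.eventually_ge_atTop _
  obtain ⟨N, h4, h5, h6, h7⟩ := (e1.and (e2.and (e3.and (eventually_ge_atTop 3)))).exists
  have hN3 : (3 : ℝ) ≤ N := by exact_mod_cast h7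
  have hN1 : (1 : ℝ) ≤ N := by linarith
  have hNN : (N : ℝ) ≤ (N : ℝ) ^ 2 := by nlinarith
  refine ⟨N, h7, h5, h6.trans hNN, ?_⟩
  have hC : (0 : ℝ) ≤ C := Nat.cast_nonneg C
  calc (C * N + 2 : ℝ) ^ 4 * Real.exp (-((N : ℝ) ^ 2 * κ))
      ≤ ((C + 2) * N : ℝ) ^ 4 * Real.exp (-((N : ℝ) * κ)) := by
        gcongr
        nlinarith
    _ = ((C + 2 : ℝ) ^ 4 / κ ^ 4) * (((N : ℝ) * κ) ^ 4 * Real.exp (-((N : ℝ) * κ))) := by
        field_simp
    _ ≤ _ := h4.le

/-- Gaussian heat smoothing fails for `p = 4/3`: for every `c > 0` there is an additive polynomial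
violating the inequality. -/
theorem heat_fails (c : ℝ) (hc : 0 < c) : ∃ (d n : ℕ) (g : ℝ[X]) (t : ℝ), 1 ≤ d ∧ 0 ≤ t ∧
    (∀ φ : ℝ[X], φ.natDegree < d → ∫ y, g.eval y * φ.eval y * Real.exp (-(y ^ 2) / 2) = 0) ∧
    Real.exp (-(t * (d : ℝ) * c)) *
        (∫ x, |∑ i : Fin n, g.eval (x i)| ^ (4 / 3 : ℝ) ∂(gn n)) ^ (1 / (4 / 3) : ℝ) <
      (∫ x, |∑ i : Fin n, Pt t (fun u => g.eval u) (x i)| ^ (4 / 3 : ℝ) ∂(gn n)) ^
        (1 / (4 / 3) : ℝ) := by
  have hpi := Real.pi_pos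
  -- constants
  set s : ℝ := Real.exp (-12) / 80 with hs
  have hs0 : 0 < s := by positivity
  obtain ⟨K, hK0, hK⟩ : ∃ K : ℝ, 0 < K ∧ Real.exp (-(K * c)) * 80 < s := by
    refine ⟨(|Real.log (80 / s)| + 1) / c, by positivity, ?_⟩
    rw [div_mul_cancel₀ _ hc.ne']
    have h1 : Real.exp (-(|Real.log (80 / s)| + 1)) < Real.exp (-Real.log (80 / s)) := by
      apply Real.exp_lt_exp.mpr
      linarith [le_abs_self (Real.log (80 / s))]
    rw [Real.exp_neg (Real.log (80 / s)), Real.exp_log (by positivity), inv_div] at h1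
    calc _ < s / 80 * 80 := by gcongr
      _ = s := by field_simp
  obtain ⟨A, hA⟩ : ∃ A : ℕ, 8 * K + 1 ≤ A := exists_nat_ge _
  have hA1 : (1 : ℝ) ≤ A := by linarith
  have hA8 : 8 * K ≤ (A : ℝ) ^ 2 := by nlinarith
  obtain ⟨C, hC⟩ : ∃ C : ℕ, max (A : ℝ) (4 * K) ≤ C := exists_nat_ge _
  have hCA : (A : ℝ) ≤ C := (le_max_left _ _).trans hC
  have hCK : 4 * K ≤ C := (le_max_right _ _).trans hC
  have hC1 : (1 : ℝ) ≤ C := hA1.trans hCA
  have hC1' : 1 ≤ C := by exact_mod_cast hC1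
  set L0 : ℝ := 32 * Real.pi * (C + 1) with hL0
  obtain ⟨N, hN3, hAN, hNL, hNs⟩ := choose_N C A (Real.exp (-L0) / 64) (by positivity)
  set X : ℝ := (N : ℝ) with hX
  have hX3 : (3 : ℝ) ≤ X := by rw [hX]; exact_mod_cast hN3
  have hX0 : 0 < X := by linarith
  set w : ℝ := A / (C * X) with hw
  have hA0 : (0 : ℝ) < A := by linarith
  have hC0 : (0 : ℝ) < C := by linarith
  have hw0 : 0 < w := by positivity
  have hwX : w * X = A / C := by rw [hw]; field_simp
  have hwX1 : w * X ≤ 1 := by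
    rw [hwX, div_le_one hC0]
    exact hCA
  have hw1 : w ≤ 1 := by nlinarith
  have hwX' : w ≤ X := by linarith
  have hwL : w ≤ 2 * X * Real.exp (-L0) := by
    have h1 : (A : ℝ) ≤ X ^ 2 * Real.exp (-L0) := by
      rw [Real.exp_neg, ← div_eq_mul_inv, le_div_iff₀ (Real.exp_pos _)]
      exact hNL
    rw [hw, div_le_iff₀ (by positivity)]
    have h2 : (0 : ℝ) ≤ X ^ 2 * Real.exp (-L0) := by positivity
    nlinarith
  set D : ℕ := (C * N) ^ 2 with hD
  have hD1 : 1 ≤ D := by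
    rw [hD]
    exact Nat.one_le_pow _ _ (Nat.mul_pos (by omega) (by omega))
  have hDr : (D : ℝ) = C ^ 2 * X ^ 2 := by
    rw [hD, hX]
    push_cast
    ring
  set t : ℝ := K / D with ht
  have hDpos : (0 : ℝ) < D := by exact_mod_cast hD1
  have ht0 : 0 ≤ t := by positivity
  have htX : t * X ≤ w / 4 := by
    have e1 : t * X = K / (C ^ 2 * X) := by
      rw [ht, hDr]
      field_simp
    have e2 : w / 4 = A * C / (4 * (C ^ 2 * X)) := by
      rw [hw]
      field_simp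
    rw [e1, e2, div_le_div_iff₀ (by positivity) (by positivity)]
    have e3 : 4 * K ≤ A * C := by nlinarith
    nlinarith [mul_nonneg (sub_nonneg.mpr e3) (by positivity : (0 : ℝ) ≤ C ^ 2 * X)]
  have htσ : Real.sqrt (1 - Real.exp (-2 * t)) ≤ w / 2 := by
    rw [Real.sqrt_le_left (by positivity)]
    have e1 : 1 - Real.exp (-2 * t) ≤ 2 * t := by linarith [Real.add_one_le_exp (-2 * t)]
    refine e1.trans ?_
    have e2 : 2 * t = 8 * K / (4 * (C ^ 2 * X ^ 2)) := by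
      rw [ht, hDr]
      field_simp
      norm_num
    have e3 : (w / 2) ^ 2 = (A : ℝ) ^ 2 / (4 * (C ^ 2 * X ^ 2)) := by
      rw [hw]
      field_simp
      norm_num
    rw [e2, e3]
    gcongr
  -- number of variables
  set n : ℕ := ⌈Real.sqrt (2 * Real.pi) * Real.exp (X ^ 2 / 2) / w⌉₊ with hn
  have hsq2pi : 1 ≤ Real.sqrt (2 * Real.pi) := by
    rw [Real.one_le_sqrt]
    linarith [Real.pi_gt_three]
  have hsq0 : 0 < Real.sqrt (2 * Real.pi) := by linarith
  have hn_ge : Real.sqrt (2 * Real.pi) * Real.exp (X ^ 2 / 2) / w ≤ n := Nat.le_ceil _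
  have hn_le : (n : ℝ) ≤ Real.sqrt (2 * Real.pi) * Real.exp (X ^ 2 / 2) / w + 1 :=
    (Nat.ceil_lt_add_one (by positivity)).le
  have hexpX : Real.exp (X ^ 2 / 2) * Real.exp (-(X ^ 2) / 2) = 1 := by
    rw [← Real.exp_add]
    ring_nf
    simp
  have hθ_ge : 1 / w ≤ theta n X := by
    unfold theta
    calc 1 / w = (Real.sqrt (2 * Real.pi) * (Real.sqrt (2 * Real.pi))⁻¹) *
          (Real.exp (X ^ 2 / 2) * Real.exp (-(X ^ 2) / 2)) / w := by
          rw [hexpX, mul_inv_cancel₀ hsq0.ne']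
          ring
      _ = (Real.sqrt (2 * Real.pi) * Real.exp (X ^ 2 / 2) / w) *
          ((Real.sqrt (2 * Real.pi))⁻¹ * Real.exp (-(X ^ 2) / 2)) := by ring
      _ ≤ _ := by gcongr
  have hsmall : (Real.sqrt (2 * Real.pi))⁻¹ * Real.exp (-(X ^ 2) / 2) ≤ 1 := by
    have e1 : (Real.sqrt (2 * Real.pi))⁻¹ ≤ 1 := inv_le_one_of_one_le₀ hsq2pi
    have e2 : Real.exp (-(X ^ 2) / 2) ≤ 1 := by
      rw [Real.exp_le_one_iff]
      nlinarith [sq_nonneg X]
    calc _ ≤ (1 : ℝ) * 1 := by gcongr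
      _ = 1 := by norm_num
  have hθ_le : theta n X ≤ 1 / w + 1 := by
    unfold theta
    calc (n : ℝ) * ((Real.sqrt (2 * Real.pi))⁻¹ * Real.exp (-(X ^ 2) / 2))
        ≤ (Real.sqrt (2 * Real.pi) * Real.exp (X ^ 2 / 2) / w + 1) *
          ((Real.sqrt (2 * Real.pi))⁻¹ * Real.exp (-(X ^ 2) / 2)) := by gcongr
      _ = (Real.sqrt (2 * Real.pi) * (Real.sqrt (2 * Real.pi))⁻¹) *
          (Real.exp (X ^ 2 / 2) * Real.exp (-(X ^ 2) / 2)) / w +
          ((Real.sqrt (2 * Real.pi))⁻¹ * Real.exp (-(X ^ 2) / 2)) := by ring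
      _ = 1 / w + ((Real.sqrt (2 * Real.pi))⁻¹ * Real.exp (-(X ^ 2) / 2)) := by
          rw [hexpX, mul_inv_cancel₀ hsq0.ne']
          ring
      _ ≤ _ := by gcongr
  have hθ0 := theta_nonneg n X
  have hθw : 1 ≤ theta n X * w := by
    calc (1 : ℝ) = 1 / w * w := by field_simp
      _ ≤ _ := by gcongr
  have hn12 : 12 ≤ n := by
    have h1 : (12 : ℝ) ≤ n := by
      refine le_trans ?_ hn_ge
      rw [le_div_iff₀ hw0]
      have h2 : (12 : ℝ) ≤ Real.exp (X ^ 2 / 2) := by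
        have h3 : (4.5 : ℝ) ≤ X ^ 2 / 2 := by nlinarith
        have h4 : Real.exp 4.5 ≤ Real.exp (X ^ 2 / 2) := Real.exp_le_exp.mpr h3
        have h5 : (12 : ℝ) ≤ Real.exp 4.5 := by
          have h6 : Real.exp 4.5 = Real.exp 1.5 ^ 3 := by
            rw [← Real.exp_nat_mul]
            norm_num
          have h7 : (2.5 : ℝ) ≤ Real.exp 1.5 := by
            have := Real.add_one_le_exp (1.5 : ℝ)
            linarith
          rw [h6]
          calc (12 : ℝ) ≤ 2.5 ^ 3 := by norm_num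
            _ ≤ _ := by gcongr
        linarith
      calc (12 : ℝ) * w ≤ 12 * 1 := by gcongr
        _ ≤ 1 * Real.exp (X ^ 2 / 2) := by linarith
        _ ≤ _ := by gcongr
    exact_mod_cast h1
  -- mass of the interval
  have hm : theta n X * ∫ y in Icc (X - w) X, omA X y ≤ 6 := by
    have h1 : ∫ y in Icc (X - w) X, omA X y ≤ w * Real.exp 1 := by
      have h2 : ∫ y in Icc (X - w) X, omA X y ≤ ∫ y in Icc (X - w) X, Real.exp 1 := by
        refine setIntegral_mono_on (int_omA_one X).integrableOn (by simp) measurableSet_Icc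
          fun y hy => ?_
        unfold omA
        apply Real.exp_le_exp.mpr
        have e1 : X - y ≤ w := by linarith [hy.1]
        have e2 : X + y ≤ 2 * X := by linarith [hy.2]
        have e3 : 0 ≤ X - y := by linarith [hy.2]
        have e4 : X ^ 2 - y ^ 2 ≤ w * (2 * X) := by nlinarith [hy.1]
        nlinarith
      refine h2.trans ?_
      simp only [integral_const, MeasurableSet.univ, measureReal_restrict_apply, univ_inter,
        smul_eq_mul]
      rw [Real.volume_real_Icc_of_le (by linarith)]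
      apply le_of_eq
      ring
    have he := Real.exp_one_lt_d9
    calc theta n X * ∫ y in Icc (X - w) X, omA X y ≤ (1 / w + 1) * (w * Real.exp 1) := by
          gcongr
          exact integral_nonneg fun y => (omA_pos X y).le
      _ = (1 + w) * Real.exp 1 := by field_simp
      _ ≤ (1 + 1) * Real.exp 1 := by gcongr
      _ ≤ 6 := by linarith
  -- the approximating polynomial
  set ε : ℝ := 2 * (C * X + 1) * Real.exp 5 * Real.exp (-(X ^ 2 * Real.exp (-L0) / 64)) with hε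
  have hε0 : 0 < ε := by positivity
  obtain ⟨g, hg, hgT⟩ := Pool.Agent.Lib97.Heat.dual_approx X D hD1 (Icc (X - w) X)
    measurableSet_Icc (Metric.isBounded_Icc _ _) ε ε hε0.le hε0
    (fun β hβ => not_seen C N w hC1' (by omega) hw0 hw1 hwX1 hwL β hβ)
  have hθC : 1 + theta n X ≤ C * X + 2 := by
    have h1 : 1 / w ≤ C * X := by
      rw [hw, one_div_div]
      rw [div_le_iff₀ hA0]
      nlinarith [mul_pos hC0 hX0]
    linarith
  have hTbound : (ε + ε) * (100000 * (1 + theta n X) ^ 3) ≤ 1 := by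
    have h5 : Real.exp 5 ≤ 250 := by
      have h6 : Real.exp 5 = Real.exp 1 ^ 5 := by
        rw [← Real.exp_nat_mul]
        norm_num
      have he := Real.exp_one_lt_d9
      rw [h6]
      calc Real.exp 1 ^ 5 ≤ (2.7182818286 : ℝ) ^ 5 := by gcongr
        _ ≤ 250 := by norm_num
    have h7 : (C * X + 2 : ℝ) ^ 4 * Real.exp (-(X ^ 2 * (Real.exp (-L0) / 64))) ≤
        1 / 400000000 := hNs
    rw [← mul_div_assoc] at h7
    have hE : 0 < Real.exp (-(X ^ 2 * Real.exp (-L0) / 64)) := Real.exp_pos _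
    calc (ε + ε) * (100000 * (1 + theta n X) ^ 3)
        ≤ (ε + ε) * (100000 * (C * X + 2) ^ 3) := by gcongr
      _ = 400000 * Real.exp 5 * ((C * X + 1) * (C * X + 2) ^ 3 *
          Real.exp (-(X ^ 2 * Real.exp (-L0) / 64))) := by rw [hε]; ring
      _ ≤ 400000 * 250 * ((C * X + 2) * (C * X + 2) ^ 3 *
          Real.exp (-(X ^ 2 * Real.exp (-L0) / 64))) := by
          gcongr
          norm_num
      _ = 100000000 * ((C * X + 2) ^ 4 * Real.exp (-(X ^ 2 * Real.exp (-L0) / 64))) := by ring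
      _ ≤ 100000000 * (1 / 400000000) := by gcongr
      _ ≤ 1 := by norm_num
  have hTbound2 : (ε + ε) * (80 * (1 + theta n X) ^ 3) ≤ 1 := by
    refine le_trans ?_ hTbound
    gcongr
    norm_num
  -- mean zero
  have hg0 : ∫ y, g.eval y ∂ga = 0 := by
    rw [PM.gaussian_integral]
    have := hg 1 (by rw [natDegree_one]; omega)
    simp only [eval_one, mul_one] at this
    rw [this, mul_zero]
  have hPg0 : ∫ y, Pt t (fun u => g.eval u) y ∂ga = 0 := by
    have h1 := Pool.Agent.Lib_helper26.Heat.Pt_symm t ht0 (fun u => g.eval u) (fun _ => 1)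
      g.continuous.measurable measurable_const g (fun _ => le_rfl) (fun x => by simp)
    simp only [Pt_one, mul_one] at h1
    rw [h1, hg0]
  have hbump := bump n X w t (by linarith) hw0 hw1 ht0 htX htσ hθw
  have hlow := lower n X w (ε + ε) t (by linarith) ht0 g hm hbump hgT hTbound
  have hup := upper n X w (ε + ε) (by linarith) hwX' g hg0 hm hgT hTbound2
  have hln := lower_norm n X w t s g hs0 (by rw [hs]; ring) hn12 hPg0 hm hlow
  refine ⟨D, n, g, t, hD1, ht0, hg, lt_of_lt_of_le ?_ hln⟩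
  have htD : t * D * c = K * c := by
    rw [ht]
    field_simp
  rw [htD]
  have h80 : (∫ x, |∑ i : Fin n, g.eval (x i)| ^ (4 / 3 : ℝ) ∂(gn n)) ^ (1 / (4 / 3) : ℝ) ≤ 80 := by
    calc _ ≤ (80 : ℝ) ^ (1 / (4 / 3) : ℝ) := by
          gcongr
      _ ≤ (80 : ℝ) ^ (1 : ℝ) := Real.rpow_le_rpow_of_exponent_le (by norm_num) (by norm_num)
      _ = 80 := Real.rpow_one _
  calc _ ≤ Real.exp (-(K * c)) * 80 := by gcongr
    _ < s := hK

end

end Pool.Agent.Lib28.Heat
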